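import Mathlib

/-!
# Rigid modules and matrices

`Rigid R M`: every self-extension of `M` splits.  `RigidMat A`: the same in terms of a
presentation matrix.
-/

set_option autoImplicit false
set_option linter.unusedVariables false

universe u

namespace H25.PSX

open Matrix

/-- Every self-extension of `M` splits. -/
def Rigid (R : Type u) [CommRing R] (M : Type u) [AddCommGroup M] [Module R M] : Prop :=
  ∀ (E : Type u) [AddCommGroup E] [Module R E]
    (f : M →ₗ[R] E) (g : E →ₗ[R] M),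
    Function.Injective f → Function.Surjective g →
    LinearMap.range f = LinearMap.ker g →
    ∃ s : M →ₗ[R] E, g ∘ₗ s = LinearMap.id

/-- The cokernel of a matrix. -/
abbrev Cok {R : Type u} [CommRing R] {a b : ℕ} (A : Matrix (Fin a) (Fin b) R) : Type u :=
  (Fin a → R) ⧸ LinearMap.range A.mulVecLin

/-- Rigidity of the cokernel of `A` in terms of `A`. -/
def RigidMat {R : Type u} [CommRing R] {a b : ℕ} (A : Matrix (Fin a) (Fin b) R) : Prop :=
  ∀ G : Matrix (Fin a) (Fin b) R,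
    (∀ v : Fin b → R, A *ᵥ v = 0 → ∃ w : Fin b → R, G *ᵥ v = A *ᵥ w) →
    ∃ (C : Matrix (Fin a) (Fin a) R) (S : Matrix (Fin b) (Fin b) R), G = C * A + A * S

theorem Rigid.of_equiv {R : Type u} [CommRing R] {M M' : Type u} [AddCommGroup M] [Module R M]
    [AddCommGroup M'] [Module R M'] (e : M ≃ₗ[R] M') (h : Rigid R M) : Rigid R M' := by
  intro E _ _ f g hf hg hfg
  obtain ⟨s, hs⟩ := h E (f ∘ₗ e.toLinearMap) (e.symm.toLinearMap ∘ₗ g)
    (hf.comp e.injective) (e.symm.surjective.comp hg) (by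
      rw [LinearMap.range_comp_of_range_eq_top f (LinearEquiv.range e), hfg,
        LinearEquiv.ker_comp])
  refine ⟨s ∘ₗ e.symm.toLinearMap, ?_⟩
  ext x
  have h1 := LinearMap.congr_fun hs (e.symm x)
  simp only [LinearMap.comp_apply, LinearEquiv.coe_coe, LinearMap.id_apply] at h1 ⊢
  exact e.symm.injective h1

section

variable {R : Type u} [CommRing R] {a b : ℕ} (A : Matrix (Fin a) (Fin b) R)

theorem mk_mulVec (v : Fin b → R) :
    (LinearMap.range A.mulVecLin).mkQ (A *ᵥ v) = 0 := by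
  rw [Submodule.mkQ_apply, Submodule.Quotient.mk_eq_zero]
  exact ⟨v, rfl⟩

theorem mk_eq_zero_iff (x : Fin a → R) :
    (LinearMap.range A.mulVecLin).mkQ x = 0 ↔ ∃ w : Fin b → R, x = A *ᵥ w := by
  rw [Submodule.mkQ_apply, Submodule.Quotient.mk_eq_zero]
  constructor
  · rintro ⟨w, hw⟩
    exact ⟨w, hw.symm⟩
  · rintro ⟨w, hw⟩
    exact ⟨w, hw.symm⟩

/-- (A) -/
theorem rigidMat_of_rigid (h : Rigid R (Cok A)) : RigidMat A := by
  intro G hG
  let π : (Fin a → R) →ₗ[R] Cok A := (LinearMap.range A.mulVecLin).mkQ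
  let θ : (Fin b → R) →ₗ[R] (Cok A × (Fin a → R)) :=
    LinearMap.prod (-(π ∘ₗ G.mulVecLin)) A.mulVecLin
  let N := LinearMap.range θ
  let E := (Cok A × (Fin a → R)) ⧸ N
  let f : Cok A →ₗ[R] E := N.mkQ ∘ₗ LinearMap.inl R _ _
  let g : E →ₗ[R] Cok A := N.liftQ (π ∘ₗ LinearMap.snd R _ _) (by
    rintro _ ⟨v, rfl⟩
    rw [LinearMap.mem_ker]
    exact mk_mulVec A v)
  have hf : Function.Injective f := by
    rw [← LinearMap.ker_eq_bot, LinearMap.ker_eq_bot']
    intro m hm
    have h1 : (LinearMap.inl R (Cok A) (Fin a → R)) m ∈ N := by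
      rw [← Submodule.Quotient.mk_eq_zero]
      exact hm
    obtain ⟨v, hv⟩ := h1
    have h2 : A *ᵥ v = 0 := congrArg Prod.snd hv
    have h3 : -(π (G *ᵥ v)) = m := congrArg Prod.fst hv
    obtain ⟨w, hw⟩ := hG v h2
    rw [hw] at h3
    rw [← h3, neg_eq_zero]
    exact mk_mulVec A w
  have hg : Function.Surjective g := by
    intro m
    obtain ⟨x, rfl⟩ := Submodule.mkQ_surjective _ m
    refine ⟨N.mkQ (0, x), ?_⟩
    rfl
  have hfg : LinearMap.range f = LinearMap.ker g := by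
    apply le_antisymm
    · rintro _ ⟨m, rfl⟩
      rw [LinearMap.mem_ker]
      exact map_zero π
    · intro y hy
      obtain ⟨⟨m, x⟩, rfl⟩ := Submodule.mkQ_surjective _ y
      have h1 : π x = 0 := hy
      obtain ⟨w, hw⟩ := (mk_eq_zero_iff A x).1 h1
      refine ⟨m + π (G *ᵥ w), ?_⟩
      change N.mkQ (m + π (G *ᵥ w), 0) = N.mkQ (m, x)
      refine (Submodule.Quotient.eq N).2 ?_
      refine ⟨-w, ?_⟩
      ext1
      · change -(π (G *ᵥ (-w))) = m + π (G *ᵥ w) - m
        rw [mulVec_neg, map_neg, neg_neg]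
        abel
      · change A *ᵥ (-w) = 0 - x
        rw [mulVec_neg, hw, zero_sub]
  obtain ⟨s, hs⟩ := h E f g hf hg hfg
  -- the difference of the two lifts of `π`
  let h' : (Fin a → R) →ₗ[R] E := N.mkQ ∘ₗ LinearMap.inr R _ _
  have hker : ∀ x, h' x - s (π x) ∈ LinearMap.range f := by
    intro x
    rw [hfg, LinearMap.mem_ker, map_sub]
    have h1 : g (s (π x)) = π x := LinearMap.congr_fun hs (π x)
    rw [h1, sub_eq_zero]
    rfl
  -- choose `C`
  have hC : ∀ i : Fin a, ∃ c : Fin a → R, f (π c) = h' (Pi.single i 1) - s (π (Pi.single i 1)) := by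
    intro i
    obtain ⟨m, hm⟩ := hker (Pi.single i 1)
    obtain ⟨c, rfl⟩ := Submodule.mkQ_surjective _ m
    exact ⟨c, hm⟩
  choose c hc using hC
  let Cm : Matrix (Fin a) (Fin a) R := Matrix.of fun i j => c j i
  have hCm : ∀ x : Fin a → R, f (π (Cm *ᵥ x)) = h' x - s (π x) := by
    intro x
    have h1 : f ∘ₗ π ∘ₗ Cm.mulVecLin = h' - s ∘ₗ π := by
      refine LinearMap.pi_ext' fun i => ?_
      ext
      simp only [LinearMap.comp_apply, LinearMap.sub_apply, LinearMap.single_apply]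
      rw [← hc i]
      congr 2
      change Cm *ᵥ Pi.single i 1 = c i
      rw [mulVec_single_one]
      rfl
    exact LinearMap.congr_fun h1 x
  -- on the image of `A`
  have hval : ∀ v : Fin b → R, π (Cm *ᵥ (A *ᵥ v)) = π (G *ᵥ v) := by
    intro v
    apply hf
    rw [hCm]
    have h1 : π (A *ᵥ v) = 0 := mk_mulVec A v
    rw [h1, map_zero, sub_zero]
    change N.mkQ (0, A *ᵥ v) = N.mkQ (π (G *ᵥ v), 0)
    refine (Submodule.Quotient.eq N).2 ?_
    refine ⟨v, ?_⟩
    ext1
    · change -(π (G *ᵥ v)) = 0 - π (G *ᵥ v)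
      rw [zero_sub]
    · change A *ᵥ v = A *ᵥ v - 0
      rw [sub_zero]
  have hS : ∀ j : Fin b, ∃ w : Fin b → R, (G - Cm * A) *ᵥ Pi.single j 1 = A *ᵥ w := by
    intro j
    rw [← mk_eq_zero_iff, sub_mulVec, map_sub, ← mulVec_mulVec, sub_eq_zero]
    exact (hval _).symm
  choose S hS' using hS
  refine ⟨Cm, Matrix.of fun i j => S j i, ?_⟩
  have h1 : G - Cm * A = A * (Matrix.of fun i j => S j i) := by
    ext i j
    have h2 := congrFun (hS' j) i
    rw [mulVec_single_one] at h2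
    exact h2
  rw [← h1]
  abel

/-- (B) -/
theorem rigid_of_rigidMat (h : RigidMat A) : Rigid R (Cok A) := by
  intro E _ _ f g hf hg hfg
  let π : (Fin a → R) →ₗ[R] Cok A := (LinearMap.range A.mulVecLin).mkQ
  obtain ⟨l, hl⟩ := Module.projective_lifting_property g π hg
  have hker : ∀ v : Fin b → R, l (A *ᵥ v) ∈ LinearMap.range f := by
    intro v
    rw [hfg, LinearMap.mem_ker]
    have h1 : g (l (A *ᵥ v)) = π (A *ᵥ v) := LinearMap.congr_fun hl _
    rw [h1]
    exact mk_mulVec A v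
  have hc : ∀ j : Fin b, ∃ c : Fin a → R, f (π c) = l (A *ᵥ Pi.single j 1) := by
    intro j
    obtain ⟨m, hm⟩ := hker (Pi.single j 1)
    obtain ⟨c, rfl⟩ := Submodule.mkQ_surjective _ m
    exact ⟨c, hm⟩
  choose c hc using hc
  let G : Matrix (Fin a) (Fin b) R := Matrix.of fun i j => c j i
  have hG : ∀ v : Fin b → R, f (π (G *ᵥ v)) = l (A *ᵥ v) := by
    intro v
    have h1 : f ∘ₗ π ∘ₗ G.mulVecLin = l ∘ₗ A.mulVecLin := by
      refine LinearMap.pi_ext' fun i => ?_
      ext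
      simp only [LinearMap.comp_apply, LinearMap.single_apply]
      change f (π (G *ᵥ Pi.single i 1)) = l (A *ᵥ Pi.single i 1)
      rw [← hc i, mulVec_single_one]
      rfl
    exact LinearMap.congr_fun h1 v
  obtain ⟨C, S, hCS⟩ := h G (by
    intro v hv
    rw [← mk_eq_zero_iff]
    apply hf
    have h1 := hG v
    rw [hv, map_zero] at h1
    rw [map_zero]
    exact h1)
  let l' : (Fin a → R) →ₗ[R] E := l - f ∘ₗ π ∘ₗ C.mulVecLin
  have hl' : LinearMap.range A.mulVecLin ≤ LinearMap.ker l' := by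
    rintro _ ⟨v, rfl⟩
    rw [LinearMap.mem_ker]
    change l (A *ᵥ v) - f (π (C *ᵥ (A *ᵥ v))) = 0
    rw [← hG v, hCS, add_mulVec, map_add, ← mulVec_mulVec, ← mulVec_mulVec]
    have h1 : π (A *ᵥ (S *ᵥ v)) = 0 := mk_mulVec A _
    rw [h1, add_zero, sub_self]
  refine ⟨(LinearMap.range A.mulVecLin).liftQ l' hl', ?_⟩
  refine LinearMap.ext fun m => ?_
  obtain ⟨x, rfl⟩ := Submodule.mkQ_surjective _ m
  change g (l x - f (π (C *ᵥ x))) = π x
  rw [map_sub]
  have h1 : g (l x) = π x := LinearMap.congr_fun hl x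
  have h2 : g (f (π (C *ᵥ x))) = 0 := by
    rw [← LinearMap.mem_ker, ← hfg]
    exact ⟨_, rfl⟩
  rw [h1, h2, sub_zero]

end

/-- (C) -/
theorem exists_presentation {R : Type u} [CommRing R] [IsNoetherianRing R] (M : Type u)
    [AddCommGroup M] [Module R M] [Module.Finite R M] :
    ∃ (a b : ℕ) (A : Matrix (Fin a) (Fin b) R), Nonempty (M ≃ₗ[R] Cok A) := by
  obtain ⟨a, π, hπ⟩ := Module.Finite.exists_fin' R M
  have hfin : Module.Finite R (LinearMap.ker π) := inferInstance
  obtain ⟨b, ρ, hρ⟩ := Module.Finite.exists_fin' R (LinearMap.ker π)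
  let φ : (Fin b → R) →ₗ[R] (Fin a → R) := (LinearMap.ker π).subtype ∘ₗ ρ
  refine ⟨a, b, LinearMap.toMatrix' φ, ⟨?_⟩⟩
  have h1 : LinearMap.range (LinearMap.toMatrix' φ).mulVecLin = LinearMap.ker π := by
    have h2 : (LinearMap.toMatrix' φ).mulVecLin = φ := by
      rw [← Matrix.toLin'_apply', Matrix.toLin'_toMatrix']
    rw [h2, LinearMap.range_comp, LinearMap.range_eq_top.2 hρ, Submodule.map_top,
      Submodule.range_subtype]
  exact ((Submodule.quotEquivOfEq _ _ h1).trans (π.quotKerEquivOfSurjective hπ)).symm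

end H25.PSX
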