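import Mathlib

/-!
# Lengths and semilinear bijections
-/

set_option autoImplicit false
set_option linter.unusedVariables false

namespace H25.PSX

theorem length_semi {R S : Type*} [CommRing R] [CommRing S] (σ : S →+* R)
    (hσ : Function.Surjective σ) {M N : Type*} [AddCommGroup M] [Module S M] [AddCommGroup N]
    [Module R N] (f : M →ₛₗ[σ] N) (hf : Function.Bijective f) :
    Module.length S M = Module.length R N := by
  have : RingHomSurjective σ := ⟨hσ⟩
  rw [Module.length, Module.length, WithBot.unbot_inj,
    Order.krullDim_eq_of_orderIso (Submodule.orderIsoMapComapOfBijective f hf)]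

/-- A surjective semilinear map induces a semilinear bijection of quotients. -/
theorem length_quot_semi {R S : Type*} [CommRing R] [CommRing S] (σ : S →+* R)
    (hσ : Function.Surjective σ) {M N : Type*} [AddCommGroup M] [Module S M] [AddCommGroup N]
    [Module R N] (f : M →ₛₗ[σ] N) (hf : Function.Surjective f) (P : Submodule R N)
    (Q : Submodule S M) (hQ : ∀ m, m ∈ Q ↔ f m ∈ P) :
    Module.length S (M ⧸ Q) = Module.length R (N ⧸ P) := by
  have : RingHomSurjective σ := ⟨hσ⟩
  refine length_semi σ hσ (Submodule.mapQ Q P f (fun m hm => (hQ m).1 hm)) ⟨?_, ?_⟩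
  · rw [injective_iff_map_eq_zero]
    intro x hx
    obtain ⟨m, rfl⟩ := Submodule.Quotient.mk_surjective _ x
    rw [Submodule.mapQ_apply, Submodule.Quotient.mk_eq_zero] at hx
    rw [Submodule.Quotient.mk_eq_zero]
    exact (hQ m).2 hx
  · intro y
    obtain ⟨n, rfl⟩ := Submodule.Quotient.mk_surjective _ y
    obtain ⟨m, rfl⟩ := hf n
    exact ⟨Submodule.Quotient.mk m, rfl⟩

end H25.PSX
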