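import Pool.Agent.H25.PSX.Taylor
import Pool.Agent.H25.PSX.Length

/-!
# Coefficient maps of an extended module
-/

set_option autoImplicit false
set_option linter.unusedVariables false

universe u

namespace H25.PSX

open Matrix PowerSeries

section

variable {R : Type u} [CommRing R] {a b : ℕ} (A : Matrix (Fin a) (Fin b) R)

/-- coefficients of a vector of power series -/
noncomputable def cf (k : ℕ) (x : Fin a → PowerSeries R) : Fin a → R := fun i => coeff k (x i)

theorem cf_mulVec (k : ℕ) (w : Fin b → PowerSeries R) :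
    cf k (A.map (C (R := R)) *ᵥ w) = A *ᵥ cf k w := by
  ext i
  simp only [cf, mulVec, dotProduct, map_sum, Matrix.map_apply, coeff_C_mul]

/-- the coefficient maps `R[[x]] ⊗ M → M` -/
noncomputable def tau (k : ℕ) : Cok (A.map (C (R := R))) →+ Cok A :=
  QuotientAddGroup.lift _
    (AddMonoidHom.mk' (fun x : Fin a → PowerSeries R => (LinearMap.range A.mulVecLin).mkQ (cf k x))
      (by
        intro x y
        rw [← map_add]
        congr 1))
    (by
      intro x hx
      obtain ⟨w, hw⟩ := hx
      rw [AddMonoidHom.mem_ker]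
      change (LinearMap.range A.mulVecLin).mkQ (cf k x) = 0
      rw [← hw]
      change (LinearMap.range A.mulVecLin).mkQ (cf k (A.map (C (R := R)) *ᵥ w)) = 0
      rw [cf_mulVec]
      exact mk_mulVec A _)

theorem tau_mk (k : ℕ) (x : Fin a → PowerSeries R) :
    tau A k ((LinearMap.range (A.map (C (R := R))).mulVecLin).mkQ x) =
      (LinearMap.range A.mulVecLin).mkQ (cf k x) := rfl

/-- `M → R[[x]] ⊗ M` -/
noncomputable def iota : Cok A →ₛₗ[(C (R := R))] Cok (A.map (C (R := R))) :=
  Submodule.mapQ (LinearMap.range A.mulVecLin) (LinearMap.range (A.map (C (R := R))).mulVecLin)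
    { toFun := fun x i => C (x i)
      map_add' := fun x y => by
        ext1 i
        simp
      map_smul' := fun r x => by
        ext1 i
        simp } (by
      rintro _ ⟨v, rfl⟩
      refine ⟨fun i => C (v i), ?_⟩
      ext1 i
      exact (RingHom.map_mulVec (C (R := R)) A v i).symm)

theorem iota_mk (x : Fin a → R) :
    iota A ((LinearMap.range A.mulVecLin).mkQ x) =
      (LinearMap.range (A.map (C (R := R))).mulVecLin).mkQ (fun i => C (x i)) := rfl

theorem tau_smul (k : ℕ) (f : PowerSeries R) (m : Cok (A.map (C (R := R)))) :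
    tau A k (f • m) =
      ∑ x ∈ Finset.HasAntidiagonal.antidiagonal k, coeff x.1 f • tau A x.2 m := by
  obtain ⟨x, rfl⟩ := Submodule.mkQ_surjective _ m
  rw [← map_smul, tau_mk]
  simp only [tau_mk, ← map_smul]
  rw [← map_sum]
  congr 1
  ext i
  simp only [cf, Pi.smul_apply, smul_eq_mul, Finset.sum_apply, coeff_mul]

theorem tau_X_smul_succ (k : ℕ) (m : Cok (A.map (C (R := R)))) :
    tau A (k + 1) ((X : PowerSeries R) • m) = tau A k m := by
  obtain ⟨x, rfl⟩ := Submodule.mkQ_surjective _ m
  rw [← map_smul, tau_mk, tau_mk]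
  congr 1
  ext i
  simp only [cf, Pi.smul_apply, smul_eq_mul, coeff_succ_X_mul]

theorem tau_X_smul_zero (m : Cok (A.map (C (R := R)))) :
    tau A 0 ((X : PowerSeries R) • m) = 0 := by
  obtain ⟨x, rfl⟩ := Submodule.mkQ_surjective _ m
  rw [← map_smul, tau_mk]
  have h1 : cf 0 ((X : PowerSeries R) • x) = 0 := by
    ext i
    simp only [cf, Pi.smul_apply, smul_eq_mul, coeff_zero_X_mul, Pi.zero_apply]
  rw [h1, map_zero]

theorem tau_zero_smul (f : PowerSeries R) (m : Cok (A.map (C (R := R)))) :
    tau A 0 (f • m) = constantCoeff f • tau A 0 m := by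
  rw [tau_smul]
  simp

theorem tau_zero_surjective : Function.Surjective (tau A 0) := by
  intro m
  obtain ⟨x, rfl⟩ := Submodule.mkQ_surjective _ m
  refine ⟨iota A ((LinearMap.range A.mulVecLin).mkQ x), ?_⟩
  rw [iota_mk, tau_mk]
  congr 1
  ext i
  simp [cf]

/-- the semilinear version of `tau 0` -/
noncomputable def tau0 : Cok (A.map (C (R := R))) →ₛₗ[constantCoeff (R := R)] Cok A where
  toFun := tau A 0
  map_add' := map_add _
  map_smul' := tau_zero_smul A

/-- decomposition `m = iota (tau 0 m) + X m'` with control of the coefficients of `m'` -/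
theorem exists_decomp (m : Cok (A.map (C (R := R)))) :
    ∃ m' : Cok (A.map (C (R := R))), m = iota A (tau A 0 m) + (X : PowerSeries R) • m' := by
  obtain ⟨x, rfl⟩ := Submodule.mkQ_surjective _ m
  have h1 : ∀ i, ∃ y : PowerSeries R, x i - C (coeff 0 (x i)) = X * y := by
    intro i
    have h2 : (X : PowerSeries R) ∣ x i - C (coeff 0 (x i)) := by
      rw [X_dvd_iff, map_sub, constantCoeff_C, coeff_zero_eq_constantCoeff_apply, sub_self]
    exact h2
  choose y hy using h1
  refine ⟨(LinearMap.range (A.map (C (R := R))).mulVecLin).mkQ y, ?_⟩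
  rw [tau_mk, iota_mk, ← map_smul, ← map_add]
  congr 1
  ext1 i
  simp only [Pi.add_apply, Pi.smul_apply, smul_eq_mul]
  rw [← hy i]
  simp [cf]

end

section

variable {R : Type u} [CommRing R] [IsLocalRing R] {a b : ℕ} (A : Matrix (Fin a) (Fin b) R)

open IsLocalRing

theorem mem_maximalIdeal_iff (f : PowerSeries R) :
    f ∈ maximalIdeal (PowerSeries R) ↔ constantCoeff f ∈ maximalIdeal R := by
  rw [mem_maximalIdeal, mem_nonunits_iff, PowerSeries.isUnit_iff_constantCoeff, mem_maximalIdeal,
    mem_nonunits_iff]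

theorem map_C_maximalIdeal_le :
    (maximalIdeal R).map (C (R := R)) ≤ maximalIdeal (PowerSeries R) := by
  rw [Ideal.map_le_iff_le_comap]
  intro r hr
  rw [Ideal.mem_comap, mem_maximalIdeal_iff, constantCoeff_C]
  exact hr

theorem X_mem_maximalIdeal : (X : PowerSeries R) ∈ maximalIdeal (PowerSeries R) := by
  rw [mem_maximalIdeal_iff, constantCoeff_X]
  exact Ideal.zero_mem _

theorem iota_mem (n : ℕ) (m : Cok A) (hm : m ∈ maximalIdeal R ^ n • (⊤ : Submodule R (Cok A))) :
    iota A m ∈ maximalIdeal (PowerSeries R) ^ n •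
      (⊤ : Submodule (PowerSeries R) (Cok (A.map (C (R := R))))) := by
  refine Submodule.smul_induction_on hm ?_ ?_
  · intro r hr x _
    rw [LinearMap.map_smulₛₗ]
    refine Submodule.smul_mem_smul ?_ trivial
    have h1 := Ideal.mem_map_of_mem (C (R := R)) hr
    rw [Ideal.map_pow] at h1
    exact Ideal.pow_right_mono map_C_maximalIdeal_le n h1
  · intro x y hx hy
    rw [map_add]
    exact Submodule.add_mem _ hx hy

/-- coefficients of the elements of `m_S ^ n M` -/
theorem tau_mem (n : ℕ) : ∀ m ∈ maximalIdeal (PowerSeries R) ^ n •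
      (⊤ : Submodule (PowerSeries R) (Cok (A.map (C (R := R))))), ∀ i,
    tau A i m ∈ maximalIdeal R ^ (n - i) • (⊤ : Submodule R (Cok A)) := by
  induction n with
  | zero =>
    intro m _ i
    simp
  | succ n ih =>
    intro m hm
    rw [pow_succ', mul_smul] at hm
    refine Submodule.smul_induction_on hm ?_ ?_
    · intro f hf x hx i
      rw [tau_smul]
      refine Submodule.sum_mem _ fun y hy => ?_
      have h1 := Finset.HasAntidiagonal.mem_antidiagonal.1 hy
      have h2 := ih x hx y.2
      rcases Nat.eq_zero_or_pos y.1 with h3 | h3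
      · rw [h3, coeff_zero_eq_constantCoeff_apply]
        have h4 : constantCoeff f ∈ maximalIdeal R := (mem_maximalIdeal_iff f).1 hf
        have h5 : constantCoeff f • tau A y.2 x ∈
            maximalIdeal R ^ (n - y.2 + 1) • (⊤ : Submodule R (Cok A)) := by
          rw [pow_succ', mul_smul]
          exact Submodule.smul_mem_smul h4 h2
        refine Submodule.smul_mono_left (Ideal.pow_le_pow_right ?_) h5
        omega
      · refine Submodule.smul_mem _ _ ?_
        refine Submodule.smul_mono_left (Ideal.pow_le_pow_right ?_) h2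
        omega
    · intro x y hx hy i
      rw [map_add]
      exact Submodule.add_mem _ (hx i) (hy i)

/-- the converse -/
theorem mem_of_tau (n : ℕ) : ∀ m : Cok (A.map (C (R := R))),
    (∀ i < n, tau A i m ∈ maximalIdeal R ^ (n - i) • (⊤ : Submodule R (Cok A))) →
    m ∈ maximalIdeal (PowerSeries R) ^ n •
      (⊤ : Submodule (PowerSeries R) (Cok (A.map (C (R := R))))) := by
  induction n with
  | zero =>
    intro m _
    simp
  | succ n ih =>
    intro m hm
    obtain ⟨m', hm'⟩ := exists_decomp A m
    have h0 : iota A (tau A 0 m) ∈ maximalIdeal (PowerSeries R) ^ (n + 1) •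
        (⊤ : Submodule (PowerSeries R) (Cok (A.map (C (R := R))))) :=
      iota_mem A (n + 1) _ (hm 0 (Nat.succ_pos n))
    have h1 : m' ∈ maximalIdeal (PowerSeries R) ^ n •
        (⊤ : Submodule (PowerSeries R) (Cok (A.map (C (R := R))))) := by
      apply ih
      intro i hi
      have h2 := hm (i + 1) (by omega)
      have h3 : tau A (i + 1) m = tau A (i + 1) (iota A (tau A 0 m)) + tau A i m' := by
        conv_lhs => rw [hm']
        rw [map_add, tau_X_smul_succ]
      have h4 : tau A (i + 1) (iota A (tau A 0 m)) = 0 := by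
        obtain ⟨x, hx⟩ := Submodule.mkQ_surjective _ (tau A 0 m)
        rw [← hx, iota_mk, tau_mk]
        have h5 : cf (i + 1) (fun i => C (x i)) = 0 := by
          ext j
          simp [cf]
        rw [h5, map_zero]
      rw [h4, zero_add] at h3
      rw [← h3]
      have h6 : n + 1 - (i + 1) = n - i := by omega
      rw [← h6]
      exact h2
    rw [hm']
    refine Submodule.add_mem _ h0 ?_
    rw [pow_succ', mul_smul]
    exact Submodule.smul_mem_smul X_mem_maximalIdeal h1

/-- the recursion for the Hilbert-Samuel function -/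
theorem length_succ (n : ℕ) :
    Module.length (PowerSeries R) (Cok (A.map (C (R := R))) ⧸
        (maximalIdeal (PowerSeries R) ^ (n + 1) •
          (⊤ : Submodule (PowerSeries R) (Cok (A.map (C (R := R))))))) =
      Module.length (PowerSeries R) (Cok (A.map (C (R := R))) ⧸
        (maximalIdeal (PowerSeries R) ^ n •
          (⊤ : Submodule (PowerSeries R) (Cok (A.map (C (R := R))))))) +
      Module.length R (Cok A ⧸ (maximalIdeal R ^ (n + 1) • (⊤ : Submodule R (Cok A)))) := by
  let S := PowerSeries R
  let M := Cok (A.map (C (R := R)))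
  let F : ℕ → Submodule S M := fun n => maximalIdeal S ^ n • (⊤ : Submodule S M)
  have hX : ∀ (n : ℕ) (m : M), m ∈ F n → (X : S) • m ∈ F (n + 1) := by
    intro n m hm
    change (X : S) • m ∈ maximalIdeal S ^ (n + 1) • (⊤ : Submodule S M)
    rw [pow_succ', mul_smul]
    exact Submodule.smul_mem_smul X_mem_maximalIdeal hm
  let f : (M ⧸ F n) →ₗ[S] (M ⧸ F (n + 1)) :=
    Submodule.mapQ (F n) (F (n + 1)) (LinearMap.lsmul S M (X : S)) (fun m hm => hX n m hm)
  let K : Submodule S M := Submodule.comap (tau0 A) (maximalIdeal R ^ (n + 1) • ⊤)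
  have hFK : F (n + 1) ≤ K := by
    intro m hm
    exact tau_mem A (n + 1) m hm 0
  let g : (M ⧸ F (n + 1)) →ₗ[S] (M ⧸ K) := Submodule.factor hFK
  have hf : Function.Injective f := by
    rw [injective_iff_map_eq_zero]
    intro x hx
    obtain ⟨m, rfl⟩ := Submodule.Quotient.mk_surjective _ x
    rw [Submodule.mapQ_apply, Submodule.Quotient.mk_eq_zero] at hx
    rw [Submodule.Quotient.mk_eq_zero]
    apply mem_of_tau
    intro i hi
    have h1 := tau_mem A (n + 1) _ hx (i + 1)
    have h2 : tau A (i + 1) ((LinearMap.lsmul S M (X : S)) m) = tau A i m :=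
      tau_X_smul_succ A i m
    rw [h2] at h1
    have h6 : n + 1 - (i + 1) = n - i := by omega
    rw [← h6]
    exact h1
  have hg : Function.Surjective g := Submodule.factor_surjective hFK
  have hex : Function.Exact f g := by
    intro y
    obtain ⟨m, rfl⟩ := Submodule.Quotient.mk_surjective _ y
    constructor
    · intro hy
      have h1 : (Submodule.Quotient.mk m : M ⧸ K) = 0 := hy
      rw [Submodule.Quotient.mk_eq_zero] at h1
      obtain ⟨m', hm'⟩ := exists_decomp A m
      refine ⟨Submodule.Quotient.mk m', ?_⟩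
      change (Submodule.Quotient.mk ((X : S) • m') : M ⧸ F (n + 1)) = Submodule.Quotient.mk m
      symm
      rw [Submodule.Quotient.eq]
      have h2 : m - (X : S) • m' = iota A (tau A 0 m) := by
        rw [sub_eq_iff_eq_add]
        exact hm'
      rw [h2]
      exact iota_mem A (n + 1) _ h1
    · rintro ⟨z, hz⟩
      obtain ⟨m', rfl⟩ := Submodule.Quotient.mk_surjective _ z
      rw [← hz]
      change (Submodule.Quotient.mk ((X : S) • m') : M ⧸ K) = 0
      rw [Submodule.Quotient.mk_eq_zero]
      change tau A 0 ((X : S) • m') ∈ maximalIdeal R ^ (n + 1) • (⊤ : Submodule R (Cok A))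
      rw [tau_X_smul_zero]
      exact Submodule.zero_mem _
  have h1 := Module.length_eq_add_of_exact f g hf hg hex
  have h2 : Module.length S (M ⧸ K) =
      Module.length R (Cok A ⧸ (maximalIdeal R ^ (n + 1) • (⊤ : Submodule R (Cok A)))) := by
    refine length_quot_semi (constantCoeff (R := R)) ?_ (tau0 A) (tau_zero_surjective A) _ K
      (fun m => Iff.rfl)
    exact fun r => ⟨C r, constantCoeff_C r⟩
  rw [← h2]
  exact h1

end

end H25.PSX
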