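import Mathlib

/-!
# A Tauberian lemma for monotone sequences
-/

set_option autoImplicit false
set_option linter.unusedVariables false

namespace H25.PSX

open Filter Topology Finset

/-- the summatory function -/
noncomputable def sm (a : ℕ → ℝ) (n : ℕ) : ℝ := ∑ j ∈ range (n + 1), a j

theorem sm_sub_ge (a : ℕ → ℝ) (ha : Monotone a) (n m : ℕ) (h : n ≤ m) :
    ((m : ℝ) - n) * a n ≤ sm a m - sm a n := by
  induction m, h using Nat.le_induction with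
  | base => simp
  | succ m hm ih =>
    have h1 : sm a (m + 1) = sm a m + a (m + 1) := by
      unfold sm
      rw [sum_range_succ]
    have h2 : a n ≤ a (m + 1) := ha (by omega)
    rw [h1]
    push_cast
    linarith

theorem sm_sub_le (a : ℕ → ℝ) (ha : Monotone a) (n m : ℕ) (h : m ≤ n) :
    sm a n - sm a m ≤ ((n : ℝ) - m) * a n := by
  induction n, h using Nat.le_induction with
  | base => simp
  | succ n hn ih =>
    have h1 : sm a (n + 1) = sm a n + a (n + 1) := by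
      unfold sm
      rw [sum_range_succ]
    have h2 : a n ≤ a (n + 1) := ha (by omega)
    have h3 : ((n : ℝ) - m) * a n ≤ ((n : ℝ) - m) * a (n + 1) := by
      apply mul_le_mul_of_nonneg_left h2
      rw [sub_nonneg]
      exact_mod_cast hn
    rw [h1]
    push_cast
    linarith

theorem tendsto_floor (c : ℝ) (hc : 0 < c) :
    Tendsto (fun n : ℕ => (⌊c * (n : ℝ)⌋₊ : ℝ) / n) atTop (𝓝 c) :=
  (tendsto_nat_floor_mul_div_atTop hc.le).comp tendsto_natCast_atTop_atTop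

theorem tendsto_floor_atTop (c : ℝ) (hc : 0 < c) :
    Tendsto (fun n : ℕ => ⌊c * (n : ℝ)⌋₊) atTop atTop := by
  refine tendsto_nat_floor_atTop.comp ?_
  exact tendsto_natCast_atTop_atTop.const_mul_atTop hc

theorem sm_floor (a : ℕ → ℝ) (p : ℕ) (E : ℝ)
    (h : Tendsto (fun n : ℕ => sm a n / (n : ℝ) ^ p) atTop (𝓝 E)) (c : ℝ) (hc : 0 < c) :
    Tendsto (fun n : ℕ => sm a ⌊c * (n : ℝ)⌋₊ / (n : ℝ) ^ p) atTop (𝓝 (E * c ^ p)) := by
  have h1 := (h.comp (tendsto_floor_atTop c hc)).mul ((tendsto_floor c hc).pow p)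
  refine h1.congr' ?_
  have h2 : ∀ᶠ n : ℕ in atTop, 0 < ⌊c * (n : ℝ)⌋₊ :=
    (tendsto_floor_atTop c hc).eventually (eventually_gt_atTop 0)
  filter_upwards [h2] with n hn
  have h3 : ((⌊c * (n : ℝ)⌋₊ : ℝ)) ^ p ≠ 0 := by
    apply pow_ne_zero
    exact_mod_cast hn.ne'
  rw [Function.comp_apply, div_pow]
  field_simp

/-- the difference quotient -/
theorem quot_floor (a : ℕ → ℝ) (d : ℕ) (E : ℝ)
    (h : Tendsto (fun n : ℕ => sm a n / (n : ℝ) ^ (d + 1)) atTop (𝓝 E)) (c : ℝ) (hc : 0 < c)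
    (hc1 : c ≠ 1) :
    Tendsto (fun n : ℕ => (sm a ⌊c * (n : ℝ)⌋₊ / (n : ℝ) ^ (d + 1) - sm a n / (n : ℝ) ^ (d + 1)) /
      ((⌊c * (n : ℝ)⌋₊ : ℝ) / n - 1)) atTop (𝓝 (E * ∑ i ∈ range (d + 1), c ^ i)) := by
  have h1 := ((sm_floor a (d + 1) E h c hc).sub h).div ((tendsto_floor c hc).sub_const 1)
    (sub_ne_zero.2 hc1)
  have h2 : (E * c ^ (d + 1) - E) / (c - 1) = E * ∑ i ∈ range (d + 1), c ^ i := by
    rw [div_eq_iff (sub_ne_zero.2 hc1), mul_assoc, geom_sum_mul]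
    ring
  rw [h2] at h1
  exact h1

theorem tauber (a : ℕ → ℝ) (ha : Monotone a) (d : ℕ) (E : ℝ)
    (h : Tendsto (fun n : ℕ => sm a n / (n : ℝ) ^ (d + 1)) atTop (𝓝 E)) :
    Tendsto (fun n : ℕ => a n / (n : ℝ) ^ d) atTop (𝓝 (E * (d + 1))) := by
  have hcont : Tendsto (fun c : ℝ => E * ∑ i ∈ range (d + 1), c ^ i) (𝓝 1) (𝓝 (E * (d + 1))) := by
    have h1 : Continuous (fun c : ℝ => E * ∑ i ∈ range (d + 1), c ^ i) := by fun_prop
    have h2 := h1.tendsto 1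
    simpa using h2
  have key : ∀ (c : ℝ) (n : ℕ), 0 < n → (⌊c * (n : ℝ)⌋₊ : ℝ) / n - 1 =
      ((⌊c * (n : ℝ)⌋₊ : ℝ) - n) / n := by
    intro c n hn
    have : (n : ℝ) ≠ 0 := by exact_mod_cast hn.ne'
    field_simp
  rw [tendsto_order]
  constructor
  · intro y hy
    have h1 := (tendsto_order.1 hcont).1 y hy
    have h1' : ∀ᶠ c : ℝ in 𝓝[<] 1, y < E * ∑ i ∈ range (d + 1), c ^ i :=
      h1.filter_mono nhdsWithin_le_nhds
    have h2' : ∀ᶠ c : ℝ in 𝓝[<] 1, 0 < c :=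
      (eventually_gt_nhds (zero_lt_one)).filter_mono nhdsWithin_le_nhds
    obtain ⟨c, hcy, hc0, hc1⟩ := (h1'.and (h2'.and self_mem_nhdsWithin)).exists
    have hc1 : c < 1 := hc1
    have h3 := (tendsto_order.1 (quot_floor a d E h c hc0 hc1.ne)).1 y hcy
    have h4 := (tendsto_order.1 (tendsto_floor c hc0)).2 1 hc1
    filter_upwards [h3, h4, eventually_gt_atTop 0] with n hn3 hn4 hn0
    refine hn3.trans_le ?_
    have hnR : (0 : ℝ) < n := by exact_mod_cast hn0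
    have hlt : (⌊c * (n : ℝ)⌋₊ : ℝ) < n := by
      rwa [div_lt_one hnR] at hn4
    have hle : ⌊c * (n : ℝ)⌋₊ ≤ n := by exact_mod_cast hlt.le
    have h5 := sm_sub_le a ha n ⌊c * (n : ℝ)⌋₊ hle
    rw [key c n hn0, ← sub_div, div_div_eq_mul_div, div_mul_eq_mul_div, div_div]
    have h6 : ((⌊c * (n : ℝ)⌋₊ : ℝ) - n) < 0 := by linarith
    rw [pow_succ]
    have h7 : (sm a ⌊c * (n : ℝ)⌋₊ - sm a n) * n /
        ((n : ℝ) ^ d * n * ((⌊c * (n : ℝ)⌋₊ : ℝ) - n)) =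
        ((sm a n - sm a ⌊c * (n : ℝ)⌋₊) / ((n : ℝ) - ⌊c * (n : ℝ)⌋₊)) / (n : ℝ) ^ d := by
      have h8 : ((n : ℝ) - ⌊c * (n : ℝ)⌋₊) ≠ 0 := by linarith
      have h9 : ((⌊c * (n : ℝ)⌋₊ : ℝ) - n) ≠ 0 := by linarith
      have h10 : ((n : ℝ) ^ d) ≠ 0 := by positivity
      field_simp
      ring
    rw [h7]
    apply div_le_div_of_nonneg_right _ (by positivity)
    rw [div_le_iff₀ (by linarith)]
    linarith
  · intro y hy
    have h1 := (tendsto_order.1 hcont).2 y hy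
    have h1' : ∀ᶠ c : ℝ in 𝓝[>] 1, E * ∑ i ∈ range (d + 1), c ^ i < y :=
      h1.filter_mono nhdsWithin_le_nhds
    obtain ⟨c, hcy, hc1⟩ := (h1'.and self_mem_nhdsWithin).exists
    have hc1 : 1 < c := hc1
    have hc0 : 0 < c := by linarith
    have h3 := (tendsto_order.1 (quot_floor a d E h c hc0 hc1.ne')).2 y hcy
    have h4 := (tendsto_order.1 (tendsto_floor c hc0)).1 1 hc1
    filter_upwards [h3, h4, eventually_gt_atTop 0] with n hn3 hn4 hn0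
    refine lt_of_le_of_lt ?_ hn3
    have hnR : (0 : ℝ) < n := by exact_mod_cast hn0
    have hlt : (n : ℝ) < (⌊c * (n : ℝ)⌋₊ : ℝ) := by
      rwa [one_lt_div hnR] at hn4
    have hle : n ≤ ⌊c * (n : ℝ)⌋₊ := by exact_mod_cast hlt.le
    have h5 := sm_sub_ge a ha n ⌊c * (n : ℝ)⌋₊ hle
    rw [key c n hn0, ← sub_div, div_div_eq_mul_div, div_mul_eq_mul_div, div_div]
    have h6 : 0 < ((⌊c * (n : ℝ)⌋₊ : ℝ) - n) := by linarith
    rw [pow_succ]
    have h7 : (sm a ⌊c * (n : ℝ)⌋₊ - sm a n) * n /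
        ((n : ℝ) ^ d * n * ((⌊c * (n : ℝ)⌋₊ : ℝ) - n)) =
        ((sm a ⌊c * (n : ℝ)⌋₊ - sm a n) / ((⌊c * (n : ℝ)⌋₊ : ℝ) - n)) / (n : ℝ) ^ d := by
      have h10 : ((n : ℝ) ^ d) ≠ 0 := by positivity
      field_simp
    rw [h7]
    apply div_le_div_of_nonneg_right _ (by positivity)
    rw [le_div_iff₀ h6]
    linarith

end H25.PSX
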