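import Pool.Agent.H25.PSX.Coeffs
import Pool.Agent.H25.PSX.Tauber
import Pool.Agent.H42.FinalOne
import Pool.Agent.H96.RM.SopReg
import Pool.Agent.H96.RM.Params
import Pool.Agent.H96.RM.LenLim

/-!
# Dimension, depth and multiplicity over `R` and over `R[[x]]`
-/

set_option autoImplicit false
set_option linter.unusedVariables false
set_option linter.unusedSectionVars false

universe u

namespace H25.PSX

open Matrix PowerSeries IsLocalRing RingTheory.Sequence
open scoped Pointwise

section

variable {R : Type u} [CommRing R] [IsLocalRing R] [IsNoetherianRing R]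

theorem exists_dim (R : Type u) [CommRing R] [IsLocalRing R] [IsNoetherianRing R] :
    ∃ d : ℕ, ringKrullDim R = (d : ℕ) := by
  have h1 : ringKrullDim R ≠ ⊤ := ringKrullDim_ne_top
  have h2 : 0 ≤ ringKrullDim R := ringKrullDim_nonneg_of_nontrivial
  obtain ⟨x, hx⟩ : ∃ x : ℕ∞, ringKrullDim R = x := by
    cases h : ringKrullDim R with
    | bot => rw [h] at h2; simp at h2
    | coe x => exact ⟨x, rfl⟩
  rw [hx] at h1
  have h3 : x ≠ ⊤ := fun h => h1 (by rw [h]; rfl)
  obtain ⟨d, rfl⟩ := ENat.ne_top_iff_exists.1 h3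
  exact ⟨d, hx⟩

theorem dim_powerSeries (d : ℕ) (hd : ringKrullDim R = (d : ℕ)) :
    ringKrullDim (PowerSeries R) = ((d + 1 : ℕ) : WithBot ℕ∞) := by
  have h1 : IsSMulRegular (PowerSeries R) (X : PowerSeries R) := by
    intro f g hfg
    have h2 : (X : PowerSeries R) * f = X * g := hfg
    exact X_mul_injective h2
  have h2 := ringKrullDim_quotient_span_singleton_succ_eq_ringKrullDim h1
    (X_mem_maximalIdeal (R := R))
  have hs : Function.Surjective (constantCoeff (R := R)) := fun r => ⟨C r, constantCoeff_C r⟩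
  have h3 : Ideal.span {(X : PowerSeries R)} = RingHom.ker (constantCoeff (R := R)) := by
    ext f
    rw [Ideal.mem_span_singleton, X_dvd_iff, RingHom.mem_ker]
  have h4 : ringKrullDim (PowerSeries R ⧸ Ideal.span {(X : PowerSeries R)}) = ringKrullDim R := by
    rw [h3]
    exact ringKrullDim_eq_of_ringEquiv (RingHom.quotientKerEquivOfSurjective hs)
  rw [h4, hd] at h2
  rw [← h2]
  push_cast
  rfl

/-- `M / X M` for an extended module -/
theorem quot_equiv {a b : ℕ} (A : Matrix (Fin a) (Fin b) R) :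
    ∃ e : QuotSMulTop (X : PowerSeries R) (Cok (A.map (C (R := R)))) ≃+ Cok A,
      ∀ (r : R) (x), e (C r • x) = r • e x := by
  let f : QuotSMulTop (X : PowerSeries R) (Cok (A.map (C (R := R)))) →ₛₗ[constantCoeff (R := R)]
      Cok A := Submodule.liftQ _ (tau0 A) (by
    intro x hx
    obtain ⟨m, _, rfl⟩ := (Submodule.mem_smul_pointwise_iff_exists _ _ _).1 hx
    rw [LinearMap.mem_ker]
    exact tau_X_smul_zero A m)
  refine ⟨AddEquiv.ofBijective (f : QuotSMulTop (X : PowerSeries R)
    (Cok (A.map (C (R := R)))) →+ Cok A) ⟨?_, ?_⟩, ?_⟩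
  · rw [injective_iff_map_eq_zero]
    intro x hx
    obtain ⟨m, rfl⟩ := Submodule.Quotient.mk_surjective _ x
    have h1 : tau A 0 m = 0 := hx
    obtain ⟨m', hm'⟩ := exists_decomp A m
    rw [h1, map_zero, zero_add] at hm'
    rw [Submodule.Quotient.mk_eq_zero, hm']
    exact Submodule.smul_mem_pointwise_smul _ _ _ trivial
  · intro y
    obtain ⟨m, rfl⟩ := tau_zero_surjective A y
    exact ⟨Submodule.Quotient.mk m, rfl⟩
  · intro r x
    have h1 := f.map_smulₛₗ (C r) x
    rw [constantCoeff_C] at h1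
    exact h1

theorem maximalIdeal_le :
    maximalIdeal (PowerSeries R) ≤
      Ideal.span {(X : PowerSeries R)} ⊔ (maximalIdeal R).map (C (R := R)) := by
  intro f hf
  rw [mem_maximalIdeal_iff] at hf
  have h1 : (X : PowerSeries R) ∣ f - C (constantCoeff f) := by
    rw [X_dvd_iff, map_sub, constantCoeff_C, sub_self]
  have h2 : f = (f - C (constantCoeff f)) + C (constantCoeff f) := by ring
  rw [h2]
  exact Ideal.add_mem _ (Ideal.mem_sup_left (Ideal.mem_span_singleton.2 h1))
    (Ideal.mem_sup_right (Ideal.mem_map_of_mem _ hf))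

theorem depth_descent {a b : ℕ} (A : Matrix (Fin a) (Fin b) R) (rs : List (PowerSeries R))
    (hrs : ∀ r ∈ rs, r ∈ maximalIdeal (PowerSeries R))
    (hreg : IsRegular (Cok (A.map (C (R := R)))) rs)
    (hlen : (rs.length : WithBot ℕ∞) = ringKrullDim (PowerSeries R)) (d : ℕ)
    (hd : ringKrullDim R = (d : ℕ)) :
    rs.length = d + 1 ∧ ∃ zs : List R, (∀ z ∈ zs, z ∈ maximalIdeal R) ∧ IsRegular (Cok A) zs ∧
      zs.length = d := by
  have hlen' : rs.length = d + 1 := by
    rw [dim_powerSeries d hd] at hlen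
    exact_mod_cast hlen
  refine ⟨hlen', ?_⟩
  obtain ⟨z, hz, c, hc⟩ := H96.RM.exists_params d hd.le (maximalIdeal R) 1 (by simp)
  let zs : List R := List.ofFn z
  have hzs : ∀ x ∈ zs, x ∈ maximalIdeal R := by
    intro x hx
    obtain ⟨i, rfl⟩ := (List.mem_ofFn' _ _).1 hx
    exact (hz i).1
  let ys : List (PowerSeries R) := X :: zs.map (C (R := R))
  have hys : ∀ y ∈ ys, y ∈ maximalIdeal (PowerSeries R) := by
    intro y hy
    rcases List.mem_cons.1 hy with rfl | hy
    · exact X_mem_maximalIdeal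
    · obtain ⟨x, hx, rfl⟩ := List.mem_map.1 hy
      rw [mem_maximalIdeal_iff, constantCoeff_C]
      exact hzs x hx
  have hyn : ys.length = rs.length := by
    rw [hlen']
    simp [ys, zs]
  have hpow : maximalIdeal (PowerSeries R) ^ (1 + c) ≤ Ideal.ofList ys := by
    calc maximalIdeal (PowerSeries R) ^ (1 + c)
        ≤ (Ideal.span {(X : PowerSeries R)} ⊔ (maximalIdeal R).map (C (R := R))) ^ (1 + c) :=
          Ideal.pow_right_mono maximalIdeal_le _
      _ ≤ Ideal.span {(X : PowerSeries R)} ^ 1 ⊔ ((maximalIdeal R).map (C (R := R))) ^ c :=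
          Ideal.sup_pow_add_le_pow_sup_pow
      _ ≤ Ideal.ofList ys := by
          rw [Ideal.ofList_cons, pow_one]
          refine sup_le_sup_left ?_ _
          rw [← Ideal.map_pow, ← Ideal.map_ofList]
          refine Ideal.map_mono (hc.trans ?_)
          rw [Ideal.span_le]
          rintro _ ⟨i, rfl⟩
          refine Ideal.subset_span ?_
          exact (List.mem_ofFn' _ _).2 ⟨i, rfl⟩
  have hPR := H96.RM.PR_of_sop (Cok (A.map (C (R := R)))) rs hrs hreg hlen ys hys hyn _ hpow
  have hw : IsWeaklyRegular (Cok (A.map (C (R := R)))) ys := hPR ys (List.Perm.refl _)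
  have hnt : Nontrivial (Cok (A.map (C (R := R)))) := hreg.nontrivial
  have hr : IsRegular (Cok (A.map (C (R := R)))) ys :=
    (IsLocalRing.isRegular_iff_isWeaklyRegular_of_subset_maximalIdeal hys).2 hw
  have hr2 := ((isRegular_cons_iff _ _ _).1 hr).2
  obtain ⟨e, he⟩ := quot_equiv A
  refine ⟨zs, hzs, ?_, by simp [zs]⟩
  refine (AddEquiv.isRegular_congr (e := e) ?_).1 hr2
  rw [List.forall₂_map_left_iff]
  exact List.forall₂_same.2 fun r _ => he r

/-- Hilbert-Samuel function -/
noncomputable def hs (R : Type u) [CommRing R] [IsLocalRing R] (M : Type u) [AddCommGroup M]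
    [Module R M] (n : ℕ) : ℝ :=
  ((Module.length R (M ⧸ (maximalIdeal R ^ n • (⊤ : Submodule R M)))).toNat : ℝ)

theorem hs_zero (R : Type u) [CommRing R] [IsLocalRing R] (M : Type u) [AddCommGroup M]
    [Module R M] : hs R M 0 = 0 := by
  have h1 : maximalIdeal R ^ 0 • (⊤ : Submodule R M) = ⊤ := by simp
  have h2 : Subsingleton (M ⧸ (maximalIdeal R ^ 0 • (⊤ : Submodule R M))) := by
    rw [h1]
    infer_instance
  rw [hs, Module.length_eq_zero]
  simp

theorem hs_mono (M : Type u) [AddCommGroup M] [Module R M] [Module.Finite R M] :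
    Monotone (hs R M) := by
  intro m n hmn
  have h1 : maximalIdeal R ^ n • (⊤ : Submodule R M) ≤ maximalIdeal R ^ m • (⊤ : Submodule R M) :=
    Submodule.smul_mono_left (Ideal.pow_le_pow_right hmn)
  have h2 := Module.length_le_of_surjective (Submodule.factor h1) (Submodule.factor_surjective h1)
  have h3 := ENat.toNat_le_toNat h2 (H96.RM.lenLim_ne_top M n)
  unfold hs
  exact_mod_cast h3

theorem sm_hs {a b : ℕ} (A : Matrix (Fin a) (Fin b) R) (n : ℕ) :
    sm (hs R (Cok A)) n = hs (PowerSeries R) (Cok (A.map (C (R := R)))) n := by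
  induction n with
  | zero =>
    rw [hs_zero, sm, Finset.sum_range_one, hs_zero]
  | succ n ih =>
    have h1 : sm (hs R (Cok A)) (n + 1) = sm (hs R (Cok A)) n + hs R (Cok A) (n + 1) := by
      unfold sm
      rw [Finset.sum_range_succ]
    rw [h1, ih]
    unfold hs
    rw [length_succ A n, ENat.toNat_add (H96.RM.lenLim_ne_top _ n)
      (H96.RM.lenLim_ne_top _ (n + 1))]
    push_cast
    rfl

theorem mcmle_descent {a b : ℕ} (A : Matrix (Fin a) (Fin b) R) (N : ℕ)
    (h : H42.MCMLe (PowerSeries R) N (Cok (A.map (C (R := R))))) : H42.MCMLe R N (Cok A) := by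
  obtain ⟨rs, hrs, hreg, hlen, e, he, hlim⟩ := h
  obtain ⟨d, hd⟩ := exists_dim R
  obtain ⟨hl, zs, hzs, hzreg, hzl⟩ := depth_descent A rs hrs hreg hlen d hd
  refine ⟨zs, hzs, hzreg, by rw [hzl, hd], e, he, ?_⟩
  rw [hl] at hlim
  rw [hzl]
  have h1 : Filter.Tendsto (fun n : ℕ => sm (hs R (Cok A)) n / (n : ℝ) ^ (d + 1)) Filter.atTop
      (nhds (e / ((d + 1).factorial : ℝ))) := by
    have h2 := hlim.div_const ((d + 1).factorial : ℝ)
    refine h2.congr fun n => ?_
    rw [sm_hs, hs]
    have h3 : ((d + 1).factorial : ℝ) ≠ 0 := by exact_mod_cast (d + 1).factorial_ne_zero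
    field_simp
  have h4 := (tauber _ (hs_mono (Cok A)) d _ h1).const_mul (d.factorial : ℝ)
  have h5 : (d.factorial : ℝ) * (e / ((d + 1).factorial : ℝ) * ((d : ℝ) + 1)) = e := by
    have h3 : (d.factorial : ℝ) ≠ 0 := by exact_mod_cast d.factorial_ne_zero
    have h6 : ((d : ℝ) + 1) ≠ 0 := by positivity
    rw [Nat.factorial_succ]
    push_cast
    field_simp
  rw [h5] at h4
  refine h4.congr fun n => ?_
  rw [hs, mul_div_assoc]

end

end H25.PSX
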