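import Pool.Agent.H25.PSX.Transport

/-!
# The finiteness property passes to power series rings
-/

set_option autoImplicit false
set_option linter.unusedVariables false
set_option linter.unusedSectionVars false

universe u

namespace H25.PSX

open Matrix PowerSeries IsLocalRing

section

variable {R : Type u} [CommRing R] {a b a' b' : ℕ}

/-- lift a map of cokernels to matrices -/
theorem exists_lift (A : Matrix (Fin a) (Fin b) R) (A' : Matrix (Fin a') (Fin b') R)
    (e : Cok A →ₗ[R] Cok A') :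
    ∃ (P : Matrix (Fin a') (Fin a) R) (Q : Matrix (Fin b') (Fin b) R), P * A = A' * Q ∧
      ∀ x, (LinearMap.range A'.mulVecLin).mkQ (P *ᵥ x) =
        e ((LinearMap.range A.mulVecLin).mkQ x) := by
  obtain ⟨l, hl⟩ := Module.projective_lifting_property (LinearMap.range A'.mulVecLin).mkQ
    (e ∘ₗ (LinearMap.range A.mulVecLin).mkQ) (Submodule.mkQ_surjective _)
  let P := LinearMap.toMatrix' l
  have hP : ∀ x, P *ᵥ x = l x := fun x => LinearMap.toMatrix'_mulVec l x
  have h1 : ∀ x, (LinearMap.range A'.mulVecLin).mkQ (P *ᵥ x) =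
        e ((LinearMap.range A.mulVecLin).mkQ x) := by
    intro x
    rw [hP]
    exact LinearMap.congr_fun hl x
  have h2 : ∀ j : Fin b, ∃ w : Fin b' → R, P *ᵥ (A *ᵥ Pi.single j 1) = A' *ᵥ w := by
    intro j
    rw [← mk_eq_zero_iff, h1, mk_mulVec, map_zero]
  choose w hw using h2
  refine ⟨P, Matrix.of fun i j => w j i, ?_, h1⟩
  ext i j
  have h3 := congrFun (hw j) i
  rw [mulVec_mulVec, mulVec_single_one] at h3
  exact h3

/-- a matrix inducing the identity of the cokernel -/
theorem exists_of_id (A : Matrix (Fin a) (Fin b) R) (T : Matrix (Fin a) (Fin a) R)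
    (hT : ∀ x, (LinearMap.range A.mulVecLin).mkQ (T *ᵥ x) =
      (LinearMap.range A.mulVecLin).mkQ x) :
    ∃ U : Matrix (Fin b) (Fin a) R, T = 1 + A * U := by
  have h2 : ∀ j : Fin a, ∃ w : Fin b → R, T *ᵥ Pi.single j 1 - Pi.single j 1 = A *ᵥ w := by
    intro j
    rw [← mk_eq_zero_iff, map_sub, hT, sub_self]
  choose w hw using h2
  refine ⟨Matrix.of fun i j => w j i, ?_⟩
  have h3 : T - 1 = A * (Matrix.of fun i j => w j i) := by
    ext i j
    have h4 := congrFun (hw j) i
    rw [mulVec_single_one] at h4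
    rw [Matrix.sub_apply, Matrix.one_apply]
    have h5 : (Pi.single j 1 : Fin a → R) i = if i = j then 1 else 0 := by
      rw [Pi.single_apply]
    rw [Pi.sub_apply, h5] at h4
    exact h4
  rw [← h3]
  abel

/-- the induced map of cokernels -/
noncomputable def cokMap {S : Type u} [CommRing S] (A : Matrix (Fin a) (Fin b) S)
    (A' : Matrix (Fin a') (Fin b') S) (P : Matrix (Fin a') (Fin a) S)
    (Q : Matrix (Fin b') (Fin b) S) (h : P * A = A' * Q) : Cok A →ₗ[S] Cok A' :=
  Submodule.mapQ _ _ P.mulVecLin (by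
    rintro _ ⟨v, rfl⟩
    refine ⟨Q *ᵥ v, ?_⟩
    change A' *ᵥ (Q *ᵥ v) = P *ᵥ (A *ᵥ v)
    rw [mulVec_mulVec, mulVec_mulVec, h])

theorem cokMap_comp {S : Type u} [CommRing S] (A : Matrix (Fin a) (Fin b) S)
    (A' : Matrix (Fin a') (Fin b') S) (P : Matrix (Fin a') (Fin a) S)
    (Q : Matrix (Fin b') (Fin b) S) (h : P * A = A' * Q) (P' : Matrix (Fin a) (Fin a') S)
    (Q' : Matrix (Fin b) (Fin b') S) (h' : P' * A' = A * Q') (U : Matrix (Fin b) (Fin a) S)
    (hU : P' * P = 1 + A * U) (x : Cok A) : cokMap A' A P' Q' h' (cokMap A A' P Q h x) = x := by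
  obtain ⟨x, rfl⟩ := Submodule.mkQ_surjective _ x
  change (LinearMap.range A.mulVecLin).mkQ (P' *ᵥ (P *ᵥ x)) = (LinearMap.range A.mulVecLin).mkQ x
  rw [mulVec_mulVec, hU, add_mulVec, one_mulVec, map_add, ← mulVec_mulVec, mk_mulVec, add_zero]

/-- base change of an isomorphism of cokernels -/
theorem baseChange (A : Matrix (Fin a) (Fin b) R) (A' : Matrix (Fin a') (Fin b') R)
    (e : Cok A ≃ₗ[R] Cok A') :
    Nonempty (Cok (A.map (C (R := R))) ≃ₗ[PowerSeries R] Cok (A'.map (C (R := R)))) := by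
  obtain ⟨P, Q, hPQ, hP⟩ := exists_lift A A' e.toLinearMap
  obtain ⟨P', Q', hPQ', hP'⟩ := exists_lift A' A e.symm.toLinearMap
  obtain ⟨U, hU⟩ := exists_of_id A (P' * P) (by
    intro x
    rw [← mulVec_mulVec, hP', hP]
    exact e.symm_apply_apply _)
  obtain ⟨U', hU'⟩ := exists_of_id A' (P * P') (by
    intro x
    rw [← mulVec_mulVec, hP, hP']
    exact e.apply_symm_apply _)
  have hC : ∀ {m n : ℕ} {l : ℕ} (M : Matrix (Fin m) (Fin n) R) (N : Matrix (Fin n) (Fin l) R),
      (M * N).map (C (R := R)) = M.map (C (R := R)) * N.map (C (R := R)) := by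
    intro m n l M N
    exact Matrix.map_mul
  have h1 : P.map (C (R := R)) * A.map (C (R := R)) = A'.map (C (R := R)) * Q.map (C (R := R)) := by
    rw [← hC, ← hC, hPQ]
  have h2 : P'.map (C (R := R)) * A'.map (C (R := R)) =
      A.map (C (R := R)) * Q'.map (C (R := R)) := by
    rw [← hC, ← hC, hPQ']
  have hone : ∀ n : ℕ, (1 : Matrix (Fin n) (Fin n) R).map (C (R := R)) = 1 := fun n =>
    Matrix.map_one _ (map_zero _) (map_one _)
  have hadd : ∀ {n : ℕ} (M N : Matrix (Fin n) (Fin n) R),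
      (M + N).map (C (R := R)) = M.map (C (R := R)) + N.map (C (R := R)) := by
    intro n M N
    ext1 i j
    simp only [Matrix.map_apply, Matrix.add_apply, map_add]
  have h3 : P'.map (C (R := R)) * P.map (C (R := R)) =
      1 + A.map (C (R := R)) * U.map (C (R := R)) := by
    rw [← hC, ← hC, hU, hadd, hone]
  have h4 : P.map (C (R := R)) * P'.map (C (R := R)) =
      1 + A'.map (C (R := R)) * U'.map (C (R := R)) := by
    rw [← hC, ← hC, hU', hadd, hone]
  exact ⟨LinearEquiv.ofLinearMap (cokMap _ _ _ _ h1) (cokMap _ _ _ _ h2)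
    (LinearMap.ext fun x => cokMap_comp _ _ _ _ h2 _ _ h1 _ h4 x)
    (LinearMap.ext fun x => cokMap_comp _ _ _ _ h1 _ _ h2 _ h3 x)⟩

end

theorem FinRigid.powerSeries {R : Type u} [CommRing R] [IsLocalRing R] [IsNoetherianRing R]
    (h : FinRigid R) : FinRigid (PowerSeries R) := by
  classical
  intro N
  obtain ⟨k, F, hF⟩ := h N
  let p : Fin k → Prop := fun i => ∃ (a b : ℕ) (A : Matrix (Fin a) (Fin b) R),
    Nonempty (Cok A ≃ₗ[R] (F i))
  let F' : Fin k → ModuleCat.{u} (PowerSeries R) := fun i =>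
    if hi : p i then ModuleCat.of (PowerSeries R)
      (Cok (hi.choose_spec.choose_spec.choose.map (C (R := R))))
    else ModuleCat.of (PowerSeries R) PUnit
  refine ⟨k, F', ?_⟩
  intro M _ _ hfin hM hrig
  obtain ⟨a, b, A, hA, ⟨e⟩⟩ := exists_descent M hrig
  have h1 : H42.MCMLe (PowerSeries R) N (Cok (A.map (C (R := R)))) :=
    mcmle_semi (RingEquiv.refl (PowerSeries R)) e.toAddEquiv (fun r m => e.map_smul r m) N hM
  have h2 : H42.MCMLe R N (Cok A) := mcmle_descent A N h1
  obtain ⟨i, ⟨e₁⟩⟩ := hF (Cok A) inferInstance h2 hA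
  have hi : p i := ⟨a, b, A, ⟨e₁⟩⟩
  refine ⟨i, ?_⟩
  have h3 : F' i = ModuleCat.of (PowerSeries R)
      (Cok (hi.choose_spec.choose_spec.choose.map (C (R := R)))) := dif_pos hi
  rw [h3]
  obtain ⟨e₂⟩ := hi.choose_spec.choose_spec.choose_spec
  obtain ⟨e₃⟩ := baseChange A _ (e₁.trans e₂.symm)
  exact ⟨e.trans e₃⟩

theorem FinRigid.mvPowerSeries {R : Type u} [CommRing R] [IsLocalRing R] [IsNoetherianRing R]
    (h : FinRigid R) (n : ℕ) : FinRigid (MvPowerSeries (Fin n) R) := by
  induction n with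
  | zero =>
    exact FinRigid.of_ringEquiv (MvPowerSeries.isEmptyEquiv (σ := Fin 0) R).symm.toRingEquiv h
  | succ n ih =>
    exact FinRigid.of_ringEquiv (MvPowerSeries.finSuccEquiv R n).symm.toRingEquiv ih.powerSeries

end H25.PSX
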