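import Pool.Agent.H25.PSX.Basic

/-!
# Straightening a rigid matrix along a one-parameter deformation
-/

set_option autoImplicit false
set_option linter.unusedVariables false

universe u

namespace H25.PSX

open Matrix PowerSeries

section

variable {R : Type u} [CommRing R] {a b : ℕ}

/-- the invariant of the construction -/
def Inv (A : Matrix (Fin a) (Fin b) R) (Φ : R →+* PowerSeries R) (k : ℕ)
    (P : Matrix (Fin a) (Fin a) (PowerSeries R)) (Q : Matrix (Fin b) (Fin b) (PowerSeries R)) :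
    Prop :=
  P.map (constantCoeff (R := R)) = 1 ∧ Q.map (constantCoeff (R := R)) = 1 ∧
    ∃ D : Matrix (Fin a) (Fin b) (PowerSeries R),
      P * A.map (C (R := R)) - A.map Φ * Q = (X ^ (k + 1) : PowerSeries R) • D

theorem isUnit_det_of {n : ℕ} (P : Matrix (Fin n) (Fin n) (PowerSeries R))
    (hP : P.map (constantCoeff (R := R)) = 1) : IsUnit P.det := by
  rw [PowerSeries.isUnit_iff_constantCoeff, RingHom.map_det, RingHom.mapMatrix_apply, hP, det_one]
  exact isUnit_one

theorem inv_zero (A : Matrix (Fin a) (Fin b) R) (Φ : R →+* PowerSeries R)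
    (hΦ : ∀ r, constantCoeff (Φ r) = r) : Inv A Φ 0 1 1 := by
  refine ⟨by rw [Matrix.map_one _ (map_zero _) (map_one _)],
    by rw [Matrix.map_one _ (map_zero _) (map_one _)], ?_⟩
  have h1 : ∀ i j, ∃ d : PowerSeries R, (A.map (C (R := R)) - A.map Φ) i j = X * d := by
    intro i j
    have h2 : (X : PowerSeries R) ∣ (A.map (C (R := R)) - A.map Φ) i j := by
      rw [X_dvd_iff, Matrix.sub_apply, Matrix.map_apply,
        Matrix.map_apply, map_sub, constantCoeff_C, hΦ, sub_self]
    exact h2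
  choose d hd using h1
  refine ⟨Matrix.of d, ?_⟩
  rw [Matrix.one_mul, Matrix.mul_one]
  ext1 i j
  rw [hd i j, Matrix.smul_apply, smul_eq_mul, zero_add, pow_one]
  rfl

theorem step (A : Matrix (Fin a) (Fin b) R) (hA : RigidMat A) (Φ : R →+* PowerSeries R)
    (hΦ : ∀ r, constantCoeff (Φ r) = r) (k : ℕ)
    (P : Matrix (Fin a) (Fin a) (PowerSeries R)) (Q : Matrix (Fin b) (Fin b) (PowerSeries R))
    (h : Inv A Φ k P Q) :
    ∃ (C₁ : Matrix (Fin a) (Fin a) R) (S₁ : Matrix (Fin b) (Fin b) R),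
      Inv A Φ (k + 1) (P - (X ^ (k + 1) : PowerSeries R) • C₁.map (C (R := R)))
        (Q + (X ^ (k + 1) : PowerSeries R) • S₁.map (C (R := R))) := by
  obtain ⟨hP, hQ, D, hD⟩ := h
  have hPu := isUnit_det_of P hP
  have hQu := isUnit_det_of Q hQ
  have hPi : (P⁻¹).map (constantCoeff (R := R)) = 1 := by
    have h1 := congrArg (fun M => M.map (constantCoeff (R := R))) (Matrix.nonsing_inv_mul P hPu)
    simp only [Matrix.map_mul, hP, Matrix.mul_one] at h1
    rw [h1, Matrix.map_one _ (map_zero _) (map_one _)]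
  have hQi : (Q⁻¹).map (constantCoeff (R := R)) = 1 := by
    have h1 := congrArg (fun M => M.map (constantCoeff (R := R))) (Matrix.nonsing_inv_mul Q hQu)
    simp only [Matrix.map_mul, hQ, Matrix.mul_one] at h1
    rw [h1, Matrix.map_one _ (map_zero _) (map_one _)]
  obtain ⟨C₁, S₁, hG⟩ := hA (D.map (constantCoeff (R := R))) (by
    intro v hv
    let u : Fin b → PowerSeries R := fun i => Φ (v i)
    let y : Fin b → PowerSeries R := Q⁻¹ *ᵥ u
    have hQy : Q *ᵥ y = u := by
      change Q *ᵥ (Q⁻¹ *ᵥ u) = u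
      rw [mulVec_mulVec, Matrix.mul_nonsing_inv Q hQu, one_mulVec]
    have hu : A.map Φ *ᵥ u = 0 := by
      ext1 i
      have h1 := RingHom.map_mulVec Φ A v i
      rw [hv, Pi.zero_apply, map_zero] at h1
      exact h1.symm
    have h1 : (X ^ (k + 1) : PowerSeries R) • (D *ᵥ y) = P *ᵥ (A.map (C (R := R)) *ᵥ y) := by
      rw [← smul_mulVec, ← hD, sub_mulVec, ← mulVec_mulVec, ← mulVec_mulVec, hQy, hu, sub_zero]
    have h2 : A.map (C (R := R)) *ᵥ y = (X ^ (k + 1) : PowerSeries R) • (P⁻¹ *ᵥ (D *ᵥ y)) := by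
      rw [← mulVec_smul, h1, mulVec_mulVec (A.map (C (R := R)) *ᵥ y) P⁻¹ P,
        Matrix.nonsing_inv_mul P hPu, one_mulVec]
    refine ⟨fun i => coeff (k + 1) (y i), ?_⟩
    ext1 i
    have h3 := congrArg (coeff (k + 1)) (congrFun h2 i)
    have h4 : coeff (k + 1) ((A.map (C (R := R)) *ᵥ y) i) =
        (A *ᵥ fun i => coeff (k + 1) (y i)) i := by
      simp only [mulVec, dotProduct, map_sum, Matrix.map_apply, coeff_C_mul]
    have h5 : coeff (k + 1) (((X ^ (k + 1) : PowerSeries R) • (P⁻¹ *ᵥ (D *ᵥ y))) i) =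
        (D.map (constantCoeff (R := R)) *ᵥ v) i := by
      rw [Pi.smul_apply, smul_eq_mul, coeff_X_pow_mul', if_pos le_rfl, Nat.sub_self,
        coeff_zero_eq_constantCoeff_apply, RingHom.map_mulVec, hPi, one_mulVec]
      rw [Function.comp_apply, RingHom.map_mulVec]
      congr 2
      ext1 j
      rw [Function.comp_apply]
      change constantCoeff ((Q⁻¹ *ᵥ u) j) = v j
      rw [RingHom.map_mulVec, hQi, one_mulVec, Function.comp_apply]
      exact hΦ (v j)
    rw [h4, h5] at h3
    exact h3.symm)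
  refine ⟨C₁, S₁, ?_, ?_, ?_⟩
  · rw [← hP]
    ext i j
    simp only [Matrix.map_apply, Matrix.sub_apply, Matrix.smul_apply, smul_eq_mul, map_sub,
      map_mul, map_pow, constantCoeff_X, zero_pow (Nat.succ_ne_zero k), zero_mul, sub_zero]
  · rw [← hQ]
    ext i j
    simp only [Matrix.map_apply, Matrix.add_apply, Matrix.smul_apply, smul_eq_mul, map_add,
      map_mul, map_pow, constantCoeff_X, zero_pow (Nat.succ_ne_zero k), zero_mul, add_zero]
  · let F : Matrix (Fin a) (Fin b) (PowerSeries R) :=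
      D - C₁.map (C (R := R)) * A.map (C (R := R)) - A.map Φ * S₁.map (C (R := R))
    have h1 : (P - (X ^ (k + 1) : PowerSeries R) • C₁.map (C (R := R))) * A.map (C (R := R)) -
        A.map Φ * (Q + (X ^ (k + 1) : PowerSeries R) • S₁.map (C (R := R))) =
        (X ^ (k + 1) : PowerSeries R) • F := by
      change _ = (X ^ (k + 1) : PowerSeries R) •
        (D - C₁.map (C (R := R)) * A.map (C (R := R)) - A.map Φ * S₁.map (C (R := R)))
      rw [smul_sub, smul_sub, ← hD, Matrix.sub_mul, Matrix.mul_add, Matrix.smul_mul,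
        Matrix.mul_smul]
      abel
    have h2 : ∀ i j, ∃ d : PowerSeries R, F i j = X * d := by
      intro i j
      have h3 : F.map (constantCoeff (R := R)) = 0 := by
        have hAΦ : (A.map Φ).map (constantCoeff (R := R)) = A := by
          ext i j
          exact hΦ _
        have hAC : (A.map (C (R := R))).map (constantCoeff (R := R)) = A := by
          ext i j
          exact constantCoeff_C _
        have hCC : (C₁.map (C (R := R))).map (constantCoeff (R := R)) = C₁ := by
          ext i j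
          exact constantCoeff_C _
        have hSC : (S₁.map (C (R := R))).map (constantCoeff (R := R)) = S₁ := by
          ext i j
          exact constantCoeff_C _
        have h4 : F.map (constantCoeff (R := R)) = D.map (constantCoeff (R := R)) -
            (C₁.map (C (R := R)) * A.map (C (R := R))).map (constantCoeff (R := R)) -
            (A.map Φ * S₁.map (C (R := R))).map (constantCoeff (R := R)) := by
          ext i j
          simp only [F, Matrix.map_apply, Matrix.sub_apply, map_sub]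
        rw [h4, Matrix.map_mul, Matrix.map_mul, hAΦ, hAC, hCC, hSC, hG]
        abel
      have h4 : (X : PowerSeries R) ∣ F i j := by
        rw [X_dvd_iff]
        exact congrFun (congrFun h3 i) j
      exact h4
    choose d hd using h2
    refine ⟨Matrix.of d, ?_⟩
    rw [h1]
    ext1 i j
    rw [Matrix.smul_apply, Matrix.smul_apply, smul_eq_mul, smul_eq_mul, hd i j, pow_succ _ (k + 1),
      mul_assoc]
    rfl

/-- the sequence of approximations -/
noncomputable def seqPQ (A : Matrix (Fin a) (Fin b) R) (hA : RigidMat A) (Φ : R →+* PowerSeries R)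
    (hΦ : ∀ r, constantCoeff (Φ r) = r) : (k : ℕ) →
    {x : Matrix (Fin a) (Fin a) (PowerSeries R) × Matrix (Fin b) (Fin b) (PowerSeries R) //
      Inv A Φ k x.1 x.2}
  | 0 => ⟨(1, 1), inv_zero A Φ hΦ⟩
  | k + 1 =>
    let x := seqPQ A hA Φ hΦ k
    ⟨(x.1.1 - (X ^ (k + 1) : PowerSeries R) •
        ((step A hA Φ hΦ k x.1.1 x.1.2 x.2).choose).map (C (R := R)),
      x.1.2 + (X ^ (k + 1) : PowerSeries R) •
        ((step A hA Φ hΦ k x.1.1 x.1.2 x.2).choose_spec.choose).map (C (R := R))),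
      (step A hA Φ hΦ k x.1.1 x.1.2 x.2).choose_spec.choose_spec⟩

variable (A : Matrix (Fin a) (Fin b) R) (hA : RigidMat A) (Φ : R →+* PowerSeries R)
    (hΦ : ∀ r, constantCoeff (Φ r) = r)

theorem seq_fst_succ (k j : ℕ) (hj : j ≤ k) (p q : Fin a) :
    coeff j ((seqPQ A hA Φ hΦ (k + 1)).1.1 p q) = coeff j ((seqPQ A hA Φ hΦ k).1.1 p q) := by
  rw [seqPQ]
  simp only [Matrix.sub_apply, Matrix.smul_apply, smul_eq_mul, map_sub]
  rw [coeff_X_pow_mul', if_neg (by omega), sub_zero]

theorem seq_snd_succ (k j : ℕ) (hj : j ≤ k) (p q : Fin b) :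
    coeff j ((seqPQ A hA Φ hΦ (k + 1)).1.2 p q) = coeff j ((seqPQ A hA Φ hΦ k).1.2 p q) := by
  rw [seqPQ]
  simp only [Matrix.add_apply, Matrix.smul_apply, smul_eq_mul, map_add]
  rw [coeff_X_pow_mul', if_neg (by omega), add_zero]

theorem seq_fst_le (k j : ℕ) (hj : j ≤ k) (p q : Fin a) :
    coeff j ((seqPQ A hA Φ hΦ k).1.1 p q) = coeff j ((seqPQ A hA Φ hΦ j).1.1 p q) := by
  induction k, hj using Nat.le_induction with
  | base => rfl
  | succ k hk ih => rw [seq_fst_succ A hA Φ hΦ k j hk, ih]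

theorem seq_snd_le (k j : ℕ) (hj : j ≤ k) (p q : Fin b) :
    coeff j ((seqPQ A hA Φ hΦ k).1.2 p q) = coeff j ((seqPQ A hA Φ hΦ j).1.2 p q) := by
  induction k, hj using Nat.le_induction with
  | base => rfl
  | succ k hk ih => rw [seq_snd_succ A hA Φ hΦ k j hk, ih]

/-- (D) -/
theorem straighten (A : Matrix (Fin a) (Fin b) R) (hA : RigidMat A) (Φ : R →+* PowerSeries R)
    (hΦ : ∀ r, constantCoeff (Φ r) = r) :
    ∃ (P : Matrix (Fin a) (Fin a) (PowerSeries R)) (Q : Matrix (Fin b) (Fin b) (PowerSeries R)),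
      P.map (constantCoeff (R := R)) = 1 ∧ Q.map (constantCoeff (R := R)) = 1 ∧
        P * A.map (C (R := R)) = A.map Φ * Q := by
  let P : Matrix (Fin a) (Fin a) (PowerSeries R) :=
    Matrix.of fun p q => PowerSeries.mk fun k => coeff k ((seqPQ A hA Φ hΦ k).1.1 p q)
  let Q : Matrix (Fin b) (Fin b) (PowerSeries R) :=
    Matrix.of fun p q => PowerSeries.mk fun k => coeff k ((seqPQ A hA Φ hΦ k).1.2 p q)
  have hPc : ∀ k j, j ≤ k → ∀ p q, coeff j (P p q) = coeff j ((seqPQ A hA Φ hΦ k).1.1 p q) := by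
    intro k j hj p q
    rw [seq_fst_le A hA Φ hΦ k j hj]
    exact coeff_mk j fun k => coeff k ((seqPQ A hA Φ hΦ k).1.1 p q)
  have hQc : ∀ k j, j ≤ k → ∀ p q, coeff j (Q p q) = coeff j ((seqPQ A hA Φ hΦ k).1.2 p q) := by
    intro k j hj p q
    rw [seq_snd_le A hA Φ hΦ k j hj]
    exact coeff_mk j fun k => coeff k ((seqPQ A hA Φ hΦ k).1.2 p q)
  refine ⟨P, Q, ?_, ?_, ?_⟩
  · rw [← (seqPQ A hA Φ hΦ 0).2.1]
    ext i j
    have h1 := hPc 0 0 le_rfl i j
    rwa [coeff_zero_eq_constantCoeff_apply, coeff_zero_eq_constantCoeff_apply] at h1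
  · rw [← (seqPQ A hA Φ hΦ 0).2.2.1]
    ext i j
    have h1 := hQc 0 0 le_rfl i j
    rwa [coeff_zero_eq_constantCoeff_apply, coeff_zero_eq_constantCoeff_apply] at h1
  · ext i j k
    obtain ⟨D, hD⟩ := (seqPQ A hA Φ hΦ k).2.2.2
    have h0 : coeff k (((seqPQ A hA Φ hΦ k).1.1 * A.map (C (R := R)) -
        A.map Φ * (seqPQ A hA Φ hΦ k).1.2) i j) = 0 := by
      rw [hD, Matrix.smul_apply, smul_eq_mul, coeff_X_pow_mul', if_neg (by omega)]
    rw [Matrix.sub_apply, map_sub, sub_eq_zero] at h0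
    have h1 : coeff k ((P * A.map (C (R := R))) i j) =
        coeff k (((seqPQ A hA Φ hΦ k).1.1 * A.map (C (R := R))) i j) := by
      simp only [Matrix.mul_apply, map_sum]
      refine Finset.sum_congr rfl fun l _ => ?_
      rw [coeff_mul, coeff_mul]
      refine Finset.sum_congr rfl fun x hx => ?_
      rw [hPc k x.1 (by have := Finset.HasAntidiagonal.mem_antidiagonal.1 hx; omega)]
    have h2 : coeff k ((A.map Φ * Q) i j) =
        coeff k ((A.map Φ * (seqPQ A hA Φ hΦ k).1.2) i j) := by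
      simp only [Matrix.mul_apply, map_sum]
      refine Finset.sum_congr rfl fun l _ => ?_
      rw [coeff_mul, coeff_mul]
      refine Finset.sum_congr rfl fun x hx => ?_
      rw [hQc k x.2 (by have := Finset.HasAntidiagonal.mem_antidiagonal.1 hx; omega)]
    rw [h1, h2, h0]

end

end H25.PSX
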