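import Pool.Agent.H25.PSX.Extend

/-!
# Rigid modules over `R[[x_1, ..., x_n]]` are extended from `R`
-/

set_option autoImplicit false
set_option linter.unusedVariables false
set_option linter.unusedSectionVars false

universe u

namespace H25.PSX

open Matrix IsLocalRing

/-- cokernels and ring isomorphisms -/
theorem cokSemi {R R' : Type u} [CommRing R] [CommRing R'] (σ : R ≃+* R') {a b : ℕ}
    (A : Matrix (Fin a) (Fin b) R) :
    ∃ e : Cok A ≃+ Cok (A.map σ), ∀ (r : R) (m : Cok A), e (r • m) = σ r • e m := by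
  let f : (Fin a → R) →ₛₗ[(σ : R →+* R')] (Fin a → R') :=
    { toFun := fun x i => σ (x i)
      map_add' := fun x y => by
        ext1 i
        exact map_add σ _ _
      map_smul' := fun r x => by
        ext1 i
        exact map_mul σ _ _ }
  have hf : ∀ v : Fin b → R, f (A *ᵥ v) = (A.map σ) *ᵥ (fun i => σ (v i)) := by
    intro v
    ext1 i
    exact RingHom.map_mulVec (σ : R →+* R') A v i
  let g : Cok A →ₛₗ[(σ : R →+* R')] Cok (A.map σ) := Submodule.mapQ _ _ f (by
    rintro _ ⟨v, rfl⟩
    exact ⟨fun i => σ (v i), (hf v).symm⟩)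
  refine ⟨AddEquiv.ofBijective (g : Cok A →+ Cok (A.map σ)) ⟨?_, ?_⟩, ?_⟩
  · rw [injective_iff_map_eq_zero]
    intro x hx
    obtain ⟨x, rfl⟩ := Submodule.mkQ_surjective _ x
    have h1 : (LinearMap.range (A.map σ).mulVecLin).mkQ (f x) = 0 := hx
    obtain ⟨w, hw⟩ := (mk_eq_zero_iff _ _).1 h1
    rw [mk_eq_zero_iff]
    refine ⟨fun i => σ.symm (w i), ?_⟩
    have h2 : f x = f (A *ᵥ (fun i => σ.symm (w i))) := by
      rw [hf, hw]
      congr 1
      ext1 i
      exact (σ.apply_symm_apply _).symm
    ext1 i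
    exact σ.injective (congrFun h2 i)
  · intro y
    obtain ⟨y, rfl⟩ := Submodule.mkQ_surjective _ y
    refine ⟨(LinearMap.range A.mulVecLin).mkQ (fun i => σ.symm (y i)), ?_⟩
    change (LinearMap.range (A.map σ).mulVecLin).mkQ (f (fun i => σ.symm (y i))) = _
    congr 1
    ext1 i
    exact σ.apply_symm_apply _
  · intro r m
    exact g.map_smulₛₗ r m

/-- A finitely generated rigid module over `R[[x_1, ..., x_n]]` has a presentation matrix with
entries in `R`. -/
theorem extended_mv {R : Type u} [CommRing R] [IsNoetherianRing R] (n : ℕ) :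
    ∀ (M : Type u) [AddCommGroup M] [Module (MvPowerSeries (Fin n) R) M],
      Module.Finite (MvPowerSeries (Fin n) R) M → Rigid (MvPowerSeries (Fin n) R) M →
      ∃ (a b : ℕ) (A : Matrix (Fin a) (Fin b) R), Rigid R (Cok A) ∧
        Nonempty (M ≃ₗ[MvPowerSeries (Fin n) R]
          Cok (A.map (MvPowerSeries.C (σ := Fin n) (R := R)))) := by
  induction n with
  | zero =>
    intro M _ _ hfin hM
    let σ : R ≃+* MvPowerSeries (Fin 0) R :=
      (MvPowerSeries.isEmptyEquiv (σ := Fin 0) R).symm.toRingEquiv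
    let instM : Module R M := Module.compHom M (σ : R →+* MvPowerSeries (Fin 0) R)
    have hMs : ∀ (r : MvPowerSeries (Fin 0) R) (x : M),
        (AddEquiv.refl M) (r • x) = σ.symm r • (AddEquiv.refl M) x := by
      intro r x
      change r • x = σ (σ.symm r) • x
      rw [σ.apply_symm_apply]
    have h1 : Module.Finite R M := finite_semi σ.symm (AddEquiv.refl M) hMs
    have h3 : Rigid R M := rigid_semi σ.symm (AddEquiv.refl M) hMs hM
    obtain ⟨a, b, A, ⟨e⟩⟩ := exists_presentation (R := R) M
    obtain ⟨e', he'⟩ := cokSemi σ A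
    refine ⟨a, b, A, h3.of_equiv e, ⟨?_⟩⟩
    let e'' : M ≃+ Cok (A.map σ) := e.toAddEquiv.trans e'
    exact { e'' with
      map_smul' := fun r x => by
        have h4 : r • x = σ.symm r • x := hMs r x
        change e' (e (r • x)) = r • e' (e x)
        rw [h4, map_smul, he', σ.apply_symm_apply] }
  | succ n ih =>
    intro M _ _ hfin hM
    let S := MvPowerSeries (Fin n) R
    let σ : PowerSeries S ≃+* MvPowerSeries (Fin (n + 1)) R :=
      (MvPowerSeries.finSuccEquiv R n).symm.toRingEquiv
    let instM : Module (PowerSeries S) M :=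
      Module.compHom M (σ : PowerSeries S →+* MvPowerSeries (Fin (n + 1)) R)
    have hMs : ∀ (r : MvPowerSeries (Fin (n + 1)) R) (x : M),
        (AddEquiv.refl M) (r • x) = σ.symm r • (AddEquiv.refl M) x := by
      intro r x
      change r • x = σ (σ.symm r) • x
      rw [σ.apply_symm_apply]
    have h1 : Module.Finite (PowerSeries S) M := finite_semi σ.symm (AddEquiv.refl M) hMs
    have h3 : Rigid (PowerSeries S) M := rigid_semi σ.symm (AddEquiv.refl M) hMs hM
    obtain ⟨a, b, A, hA, ⟨e⟩⟩ := exists_descent (R := S) M h3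
    obtain ⟨a', b', B, hB, ⟨e₁⟩⟩ := ih (Cok A) inferInstance hA
    obtain ⟨e₂⟩ := baseChange A _ e₁
    have hex := cokSemi σ
      ((B.map (MvPowerSeries.C (σ := Fin n) (R := R))).map (PowerSeries.C (R := S)))
    have hmat : ((B.map (MvPowerSeries.C (σ := Fin n) (R := R))).map
        (PowerSeries.C (R := S))).map σ = B.map (MvPowerSeries.C (σ := Fin (n + 1)) (R := R)) := by
      ext1 i j
      change (MvPowerSeries.finSuccEquiv R n).symm
        (PowerSeries.C (MvPowerSeries.C (B i j))) = MvPowerSeries.C (B i j)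
      have h5 := (MvPowerSeries.finSuccEquiv R n).symm.commutes (B i j)
      rw [PowerSeries.algebraMap_apply, MvPowerSeries.algebraMap_apply,
        MvPowerSeries.algebraMap_apply] at h5
      exact h5
    rw [hmat] at hex
    obtain ⟨e', he'⟩ := hex
    refine ⟨a', b', B, hB, ⟨?_⟩⟩
    let e'' : M ≃+ Cok (B.map (MvPowerSeries.C (σ := Fin (n + 1)) (R := R))) :=
      (e.trans e₂).toAddEquiv.trans e'
    exact { e'' with
      map_smul' := fun r x => by
        have h4 : r • x = σ.symm r • x := hMs r x
        change e' ((e.trans e₂) (r • x)) = r • e' ((e.trans e₂) x)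
        rw [h4, map_smul, he', σ.apply_symm_apply] }

end H25.PSX
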