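import Pool.Agent.H25.PSX.Straight

/-!
# The Taylor homomorphism (all Hasse derivatives at once), and extendedness of rigid modules
-/

set_option autoImplicit false
set_option linter.unusedVariables false

universe u

namespace H25.PSX

open Matrix PowerSeries Finset

section Taylor

variable {R : Type u} [CommRing R]

theorem sum_shift (h : ℕ → ℕ → R) (n i j : ℕ) (hi : ∀ a b, a < i → h a b = 0)
    (hj : ∀ a b, b < j → h a b = 0) :
    ∑ x ∈ HasAntidiagonal.antidiagonal n, h (x.1 + i) (x.2 + j) =
      ∑ x ∈ HasAntidiagonal.antidiagonal (n + (i + j)), h x.1 x.2 := by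
  classical
  have hinj : Set.InjOn (fun x : ℕ × ℕ => (x.1 + i, x.2 + j))
      (HasAntidiagonal.antidiagonal n : Finset (ℕ × ℕ)) := by
    intro x _ y _ hxy
    simp only [Prod.mk.injEq, add_left_inj] at hxy
    exact Prod.ext hxy.1 hxy.2
  have h1 : ∑ x ∈ HasAntidiagonal.antidiagonal n, h (x.1 + i) (x.2 + j) =
      ∑ x ∈ (HasAntidiagonal.antidiagonal n).image (fun x : ℕ × ℕ => (x.1 + i, x.2 + j)),
        h x.1 x.2 := by
    rw [Finset.sum_image hinj]
  rw [h1]
  refine Finset.sum_subset ?_ ?_
  · intro x hx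
    obtain ⟨y, hy, rfl⟩ := Finset.mem_image.1 hx
    have h2 := HasAntidiagonal.mem_antidiagonal.1 hy
    refine HasAntidiagonal.mem_antidiagonal.2 ?_
    change y.1 + i + (y.2 + j) = n + (i + j)
    omega
  · intro x hx hx'
    by_cases h2 : x.1 < i
    · exact hi _ _ h2
    · by_cases h3 : x.2 < j
      · exact hj _ _ h3
      · exfalso
        apply hx'
        refine Finset.mem_image.2 ⟨(x.1 - i, x.2 - j), ?_, ?_⟩
        · have h4 := HasAntidiagonal.mem_antidiagonal.1 hx
          refine HasAntidiagonal.mem_antidiagonal.2 ?_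
          change x.1 - i + (x.2 - j) = n
          omega
        · refine Prod.ext ?_ ?_
          · change x.1 - i + i = x.1
            omega
          · change x.2 - j + j = x.2
            omega

theorem taylor_mul_aux (f g : ℕ → R) (n k : ℕ) :
    (((n + k).choose k : ℕ) : R) * ∑ x ∈ HasAntidiagonal.antidiagonal (n + k), f x.1 * g x.2 =
      ∑ y ∈ HasAntidiagonal.antidiagonal k, ∑ x ∈ HasAntidiagonal.antidiagonal n,
        ((((x.1 + y.1).choose y.1 : ℕ) : R) * f (x.1 + y.1)) *
          ((((x.2 + y.2).choose y.2 : ℕ) : R) * g (x.2 + y.2)) := by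
  have h1 : ∀ y ∈ HasAntidiagonal.antidiagonal k, ∑ x ∈ HasAntidiagonal.antidiagonal n,
        ((((x.1 + y.1).choose y.1 : ℕ) : R) * f (x.1 + y.1)) *
          ((((x.2 + y.2).choose y.2 : ℕ) : R) * g (x.2 + y.2)) =
      ∑ x ∈ HasAntidiagonal.antidiagonal (n + k), (((x.1.choose y.1 : ℕ) : R) * f x.1) *
          (((x.2.choose y.2 : ℕ) : R) * g x.2) := by
    intro y hy
    have h2 := sum_shift (fun a b => (((a.choose y.1 : ℕ) : R) * f a) *
          (((b.choose y.2 : ℕ) : R) * g b)) n y.1 y.2
      (fun a b hab => by simp only [Nat.choose_eq_zero_of_lt hab, Nat.cast_zero, zero_mul])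
      (fun a b hab => by
        simp only [Nat.choose_eq_zero_of_lt hab, Nat.cast_zero, zero_mul, mul_zero])
    rw [HasAntidiagonal.mem_antidiagonal.1 hy] at h2
    exact h2
  rw [Finset.sum_congr rfl h1, Finset.sum_comm, Finset.mul_sum]
  refine Finset.sum_congr rfl fun x hx => ?_
  have h3 : n + k = x.1 + x.2 := (HasAntidiagonal.mem_antidiagonal.1 hx).symm
  rw [h3, Nat.add_choose_eq, Nat.cast_sum, Finset.sum_mul]
  refine Finset.sum_congr rfl fun y hy => ?_
  rw [Nat.cast_mul]
  ring

/-- The Taylor homomorphism `f(x) ↦ f(x + ε)`. -/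
noncomputable def taylor (R : Type u) [CommRing R] :
    PowerSeries R →+* PowerSeries (PowerSeries R) where
  toFun f := PowerSeries.mk fun k => PowerSeries.mk fun n =>
    (((n + k).choose k : ℕ) : R) * coeff (n + k) f
  map_one' := by
    ext k n
    rw [coeff_mk, coeff_mk, coeff_one, coeff_one]
    by_cases hk : k = 0
    · subst hk
      by_cases hn : n = 0
      · subst hn
        simp
      · rw [if_neg (by omega), mul_zero, if_pos rfl, coeff_one, if_neg hn]
    · rw [if_neg (by omega), mul_zero, if_neg hk, map_zero]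
  map_zero' := by
    ext k n
    simp
  map_add' f g := by
    ext k n
    simp [mul_add]
  map_mul' f g := by
    ext k n
    rw [coeff_mk, coeff_mk, coeff_mul, coeff_mul, map_sum]
    rw [taylor_mul_aux (fun a => coeff a f) (fun a => coeff a g) n k]
    refine Finset.sum_congr rfl fun y hy => ?_
    rw [coeff_mul]
    refine Finset.sum_congr rfl fun x hx => ?_
    rw [coeff_mk, coeff_mk, coeff_mk, coeff_mk]

theorem constantCoeff_taylor (f : PowerSeries R) : constantCoeff (taylor R f) = f := by
  ext n
  rw [← coeff_zero_eq_constantCoeff_apply]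
  change coeff n (coeff 0 (PowerSeries.mk fun k => PowerSeries.mk fun n =>
    (((n + k).choose k : ℕ) : R) * coeff (n + k) f)) = _
  rw [coeff_mk, coeff_mk, Nat.add_zero, Nat.choose_zero_right, Nat.cast_one, one_mul]

theorem map_taylor (f : PowerSeries R) :
    PowerSeries.map (constantCoeff (R := R)) (taylor R f) = f := by
  ext k
  rw [coeff_map]
  change constantCoeff (coeff k (PowerSeries.mk fun k => PowerSeries.mk fun n =>
    (((n + k).choose k : ℕ) : R) * coeff (n + k) f)) = _
  rw [coeff_mk, ← coeff_zero_eq_constantCoeff_apply, coeff_mk, Nat.zero_add, Nat.choose_self,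
    Nat.cast_one, one_mul]

end Taylor

section Extended

variable {R : Type u} [CommRing R] {a b : ℕ}

/-- the automorphism of a free module given by a matrix with constant part one -/
noncomputable def mulEquiv {n : ℕ} (P : Matrix (Fin n) (Fin n) (PowerSeries R))
    (hP : IsUnit P.det) : (Fin n → PowerSeries R) ≃ₗ[PowerSeries R] (Fin n → PowerSeries R) :=
  LinearEquiv.ofLinearMap P.mulVecLin P⁻¹.mulVecLin
    (by rw [← Matrix.mulVecLin_mul, Matrix.mul_nonsing_inv P hP, Matrix.mulVecLin_one])
    (by rw [← Matrix.mulVecLin_mul, Matrix.nonsing_inv_mul P hP, Matrix.mulVecLin_one])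

/-- (F) A rigid module over `R[[x]]` is extended from `R`. -/
theorem extended (A : Matrix (Fin a) (Fin b) (PowerSeries R)) (hA : RigidMat A) :
    Nonempty (Cok A ≃ₗ[PowerSeries R]
      Cok ((A.map (constantCoeff (R := R))).map (C (R := R)))) := by
  obtain ⟨P, Q, hP, hQ, hPQ⟩ := straighten A hA (taylor R) constantCoeff_taylor
  let ev : PowerSeries (PowerSeries R) →+* PowerSeries R := PowerSeries.map (constantCoeff (R := R))
  have hcc : ∀ x : PowerSeries (PowerSeries R),
      constantCoeff (ev x) = constantCoeff (constantCoeff x) := by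
    intro x
    rw [← coeff_zero_eq_constantCoeff_apply (ev x), ← coeff_zero_eq_constantCoeff_apply x]
    exact coeff_map (constantCoeff (R := R)) 0 x
  have hone : ∀ {n : ℕ} (M : Matrix (Fin n) (Fin n) (PowerSeries (PowerSeries R))),
      M.map (constantCoeff (R := PowerSeries R)) = 1 → IsUnit (M.map ev).det := by
    intro n M hM
    apply isUnit_det_of
    ext i j
    rw [Matrix.map_apply, Matrix.map_apply, hcc]
    have h1 : constantCoeff (M i j) = (1 : Matrix (Fin n) (Fin n) (PowerSeries R)) i j := by
      rw [← hM, Matrix.map_apply]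
    rw [h1, Matrix.one_apply, Matrix.one_apply]
    split_ifs
    · exact map_one _
    · exact map_zero _
  have hPu := hone P hP
  have hQu := hone Q hQ
  have h1 : P.map ev * (A.map (constantCoeff (R := R))).map (C (R := R)) = A * Q.map ev := by
    have h2 := congrArg (fun M => M.map ev) hPQ
    simp only [Matrix.map_mul] at h2
    have h3 : (A.map (C (R := PowerSeries R))).map ev =
        (A.map (constantCoeff (R := R))).map (C (R := R)) := by
      ext1 i j
      exact PowerSeries.map_C (constantCoeff (R := R)) (A i j)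
    have h4 : (A.map (taylor R)).map ev = A := by
      ext1 i j
      exact map_taylor _
    rw [h3, h4] at h2
    exact h2
  let e := mulEquiv (P.map ev) hPu
  refine ⟨(Submodule.Quotient.equiv _ _ e ?_).symm⟩
  apply le_antisymm
  · rintro _ ⟨_, ⟨v, rfl⟩, rfl⟩
    refine ⟨Q.map ev *ᵥ v, ?_⟩
    change A *ᵥ (Q.map ev *ᵥ v) =
      P.map ev *ᵥ ((A.map (constantCoeff (R := R))).map (C (R := R)) *ᵥ v)
    rw [mulVec_mulVec, mulVec_mulVec, h1]
  · rintro _ ⟨w, rfl⟩
    refine ⟨(A.map (constantCoeff (R := R))).map (C (R := R)) *ᵥ ((Q.map ev)⁻¹ *ᵥ w), ⟨_, rfl⟩, ?_⟩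
    change P.map ev *ᵥ ((A.map (constantCoeff (R := R))).map (C (R := R)) *ᵥ
      ((Q.map ev)⁻¹ *ᵥ w)) = A *ᵥ w
    rw [mulVec_mulVec _ (P.map ev), h1, mulVec_mulVec _ (A * Q.map ev), Matrix.mul_assoc,
      Matrix.mul_nonsing_inv _ hQu, Matrix.mul_one]

/-- (F2) -/
theorem rigidMat_const (A : Matrix (Fin a) (Fin b) R) (hA : RigidMat (A.map (C (R := R)))) :
    RigidMat A := by
  intro G hG
  obtain ⟨C₁, S₁, h⟩ := hA (G.map (C (R := R))) (by
    intro v hv
    have h1 : ∀ k, ∃ w : Fin b → R, G *ᵥ (fun i => coeff k (v i)) = A *ᵥ w := by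
      intro k
      apply hG
      ext1 i
      have h2 := congrArg (coeff k) (congrFun hv i)
      simp only [mulVec, dotProduct, map_sum, Matrix.map_apply, coeff_C_mul, Pi.zero_apply,
        map_zero] at h2
      exact h2
    choose w hw using h1
    refine ⟨fun i => PowerSeries.mk fun k => w k i, ?_⟩
    ext i k
    have h3 := congrFun (hw k) i
    simp only [mulVec, dotProduct, map_sum, Matrix.map_apply, coeff_C_mul, coeff_mk] at h3 ⊢
    exact h3)
  refine ⟨C₁.map (constantCoeff (R := R)), S₁.map (constantCoeff (R := R)), ?_⟩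
  have h1 := congrArg (fun M => M.map (constantCoeff (R := R))) h
  have h2 : ∀ {m n : ℕ} (M : Matrix (Fin m) (Fin n) R),
      (M.map (C (R := R))).map (constantCoeff (R := R)) = M := by
    intro m n M
    ext i j
    exact constantCoeff_C _
  have h3 : (C₁ * A.map (C (R := R)) + A.map (C (R := R)) * S₁).map (constantCoeff (R := R)) =
      C₁.map (constantCoeff (R := R)) * A + A * S₁.map (constantCoeff (R := R)) := by
    have h4 : (C₁ * A.map (C (R := R)) + A.map (C (R := R)) * S₁).map (constantCoeff (R := R)) =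
        (C₁ * A.map (C (R := R))).map (constantCoeff (R := R)) +
          (A.map (C (R := R)) * S₁).map (constantCoeff (R := R)) := by
      ext i j
      simp only [Matrix.map_apply, Matrix.add_apply, map_add]
    rw [h4, Matrix.map_mul, Matrix.map_mul, h2]
  simp only [h2, h3] at h1
  exact h1

/-- (F3) Over a Noetherian ring `R` every finitely generated rigid module over `R[[x]]` is
extended from a rigid module. -/
theorem exists_descent [IsNoetherianRing R] (M : Type u) [AddCommGroup M]
    [Module (PowerSeries R) M] [Module.Finite (PowerSeries R) M]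
    (hM : Rigid (PowerSeries R) M) :
    ∃ (a b : ℕ) (A : Matrix (Fin a) (Fin b) R), Rigid R (Cok A) ∧
      Nonempty (M ≃ₗ[PowerSeries R] Cok (A.map (C (R := R)))) := by
  obtain ⟨a, b, A, ⟨e⟩⟩ := exists_presentation (R := PowerSeries R) M
  have h1 : RigidMat A := rigidMat_of_rigid A (hM.of_equiv e)
  obtain ⟨e'⟩ := extended A h1
  refine ⟨a, b, A.map (constantCoeff (R := R)), ?_, ⟨e.trans e'⟩⟩
  apply rigid_of_rigidMat
  apply rigidMat_const
  apply rigidMat_of_rigid
  exact hM.of_equiv (e.trans e')

end Extended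

end H25.PSX
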