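import Pool.Agent.H25.PSX.Depth

/-!
# Transport of the finiteness property along ring isomorphisms
-/

set_option autoImplicit false
set_option linter.unusedVariables false
set_option linter.unusedSectionVars false

universe u

namespace H25.PSX

open IsLocalRing RingTheory.Sequence

/-- For every `N` there are only finitely many rigid maximal Cohen-Macaulay modules of
multiplicity at most `N`. -/
def FinRigid (R : Type u) [CommRing R] [IsLocalRing R] : Prop :=
  ∀ N : ℕ, ∃ (k : ℕ) (F : Fin k → ModuleCat.{u} R), ∀ (M : Type u) [AddCommGroup M] [Module R M],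
    Module.Finite R M → H42.MCMLe R N M → Rigid R M → ∃ i : Fin k, Nonempty (M ≃ₗ[R] (F i))

section

variable {R R' : Type u} [CommRing R] [CommRing R'] (σ : R ≃+* R')
variable {M M' : Type u} [AddCommGroup M] [Module R M] [AddCommGroup M'] [Module R' M']
variable (e : M ≃+ M') (he : ∀ (r : R) (m : M), e (r • m) = σ r • e m)

include he in
theorem symm_smul (r : R') (m : M') : e.symm (r • m) = σ.symm r • e.symm m := by
  apply e.injective
  rw [he, e.apply_symm_apply, e.apply_symm_apply, σ.apply_symm_apply]

/-- the semilinear map -/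
def semi : M →ₛₗ[(σ : R →+* R')] M' where
  toFun := e
  map_add' := map_add e
  map_smul' := he

include he in
theorem finite_semi [Module.Finite R M] : Module.Finite R' M' := by
  have : RingHomSurjective (σ : R →+* R') := ⟨σ.surjective⟩
  exact Module.Finite.of_surjective (semi σ e he) e.surjective

include he in
theorem rigid_semi (h : Rigid R M) : Rigid R' M' := by
  intro E _ _ f g hf hg hfg
  let instE : Module R E := Module.compHom E (σ : R →+* R')
  have hE : ∀ (r : R) (x : E), r • x = σ r • x := fun r x => rfl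
  let f₁ : M →ₗ[R] E :=
    { toFun := fun x => f (e x)
      map_add' := fun x y => by rw [map_add, map_add]
      map_smul' := fun r x => by
        rw [he, map_smul, RingHom.id_apply, hE] }
  let g₁ : E →ₗ[R] M :=
    { toFun := fun x => e.symm (g x)
      map_add' := fun x y => by rw [map_add, map_add]
      map_smul' := fun r x => by
        rw [hE, map_smul, symm_smul σ e he, RingHom.id_apply, σ.symm_apply_apply] }
  obtain ⟨s, hs⟩ := h E f₁ g₁ (hf.comp e.injective) (e.symm.surjective.comp hg) (by
    ext x
    rw [LinearMap.mem_range, LinearMap.mem_ker]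
    have h1 : x ∈ LinearMap.range f ↔ x ∈ LinearMap.ker g := by rw [hfg]
    rw [LinearMap.mem_range, LinearMap.mem_ker] at h1
    constructor
    · rintro ⟨y, hy⟩
      change e.symm (g x) = 0
      rw [h1.1 ⟨e y, hy⟩, map_zero]
    · intro hx
      have hx' : e.symm (g x) = 0 := hx
      obtain ⟨y, hy⟩ := h1.2 (by
        rw [← e.apply_symm_apply (g x), hx', map_zero])
      refine ⟨e.symm y, ?_⟩
      change f (e (e.symm y)) = x
      rw [e.apply_symm_apply, hy])
  refine ⟨{ toFun := fun y => s (e.symm y)
            map_add' := fun x y => by rw [map_add, map_add]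
            map_smul' := fun r y => by
              rw [symm_smul σ e he, map_smul, hE, σ.apply_symm_apply, RingHom.id_apply] }, ?_⟩
  ext y
  have h1 : e.symm (g (s (e.symm y))) = e.symm y := LinearMap.congr_fun hs (e.symm y)
  exact e.symm.injective h1

theorem maximalIdeal_equiv [IsLocalRing R] [IsLocalRing R'] (r : R) :
    σ r ∈ maximalIdeal R' ↔ r ∈ maximalIdeal R := by
  rw [mem_maximalIdeal, mem_maximalIdeal, mem_nonunits_iff, mem_nonunits_iff,
    MulEquiv.isUnit_map σ]

theorem map_maximalIdeal [IsLocalRing R] [IsLocalRing R'] :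
    (maximalIdeal R).map (σ : R →+* R') = maximalIdeal R' := by
  apply le_antisymm
  · rw [Ideal.map_le_iff_le_comap]
    intro r hr
    exact (maximalIdeal_equiv σ r).2 hr
  · intro r hr
    have h1 : σ.symm r ∈ maximalIdeal R := by
      rw [← maximalIdeal_equiv σ, σ.apply_symm_apply]
      exact hr
    have h2 := Ideal.mem_map_of_mem (σ : R →+* R') h1
    have h3 : (σ : R →+* R') (σ.symm r) = r := σ.apply_symm_apply r
    rwa [h3] at h2

include he in
theorem mem_pow_smul [IsLocalRing R] [IsLocalRing R'] (n : ℕ) (m : M)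
    (hm : m ∈ maximalIdeal R ^ n • (⊤ : Submodule R M)) :
    e m ∈ maximalIdeal R' ^ n • (⊤ : Submodule R' M') := by
  refine Submodule.smul_induction_on hm ?_ ?_
  · intro r hr x _
    rw [he]
    refine Submodule.smul_mem_smul ?_ trivial
    have h1 := Ideal.mem_map_of_mem (σ : R →+* R') hr
    rw [Ideal.map_pow, map_maximalIdeal σ] at h1
    exact h1
  · intro x y hx hy
    rw [map_add]
    exact Submodule.add_mem _ hx hy

include he in
theorem mem_pow_smul_iff [IsLocalRing R] [IsLocalRing R'] (n : ℕ) (m : M) :
    m ∈ maximalIdeal R ^ n • (⊤ : Submodule R M) ↔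
      e m ∈ maximalIdeal R' ^ n • (⊤ : Submodule R' M') := by
  constructor
  · exact mem_pow_smul σ e he n m
  · intro h
    have h1 := mem_pow_smul σ.symm e.symm (symm_smul σ e he) n (e m) h
    rwa [e.symm_apply_apply] at h1

include he in
theorem mcmle_semi [IsLocalRing R] [IsLocalRing R'] (N : ℕ) (h : H42.MCMLe R N M) :
    H42.MCMLe R' N M' := by
  obtain ⟨rs, hrs, hreg, hlen, c, hc, hlim⟩ := h
  refine ⟨rs.map σ, ?_, ?_, ?_, c, hc, ?_⟩
  · intro r hr
    obtain ⟨x, hx, rfl⟩ := List.mem_map.1 hr
    exact (maximalIdeal_equiv σ x).2 (hrs x hx)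
  · refine (AddEquiv.isRegular_congr (e := e) ?_).1 hreg
    rw [List.forall₂_map_right_iff]
    exact List.forall₂_same.2 fun r _ => he r
  · rw [List.length_map, hlen]
    exact ringKrullDim_eq_of_ringEquiv σ
  · rw [List.length_map]
    refine hlim.congr fun n => ?_
    have h1 : Module.length R (M ⧸ (maximalIdeal R ^ n • (⊤ : Submodule R M))) =
        Module.length R' (M' ⧸ (maximalIdeal R' ^ n • (⊤ : Submodule R' M'))) :=
      length_quot_semi (σ : R →+* R') σ.surjective (semi σ e he) e.surjective _ _
        (mem_pow_smul_iff σ e he n)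
    rw [h1]

end

theorem FinRigid.of_ringEquiv {R R' : Type u} [CommRing R] [CommRing R'] [IsLocalRing R]
    [IsLocalRing R'] (σ : R ≃+* R') (h : FinRigid R) : FinRigid R' := by
  intro N
  obtain ⟨k, F, hF⟩ := h N
  refine ⟨k, fun i => @ModuleCat.of R' _ (F i) _ (Module.compHom (F i) (σ.symm : R' →+* R)), ?_⟩
  intro M _ _ hfin hM hrig
  let instM : Module R M := Module.compHom M (σ : R →+* R')
  have hMs : ∀ (r : R') (x : M), (AddEquiv.refl M) (r • x) = σ.symm r • (AddEquiv.refl M) x := by
    intro r x
    change r • x = σ (σ.symm r) • x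
    rw [σ.apply_symm_apply]
  have h1 : Module.Finite R M := finite_semi σ.symm (AddEquiv.refl M) hMs
  have h2 : H42.MCMLe R N M := mcmle_semi σ.symm (AddEquiv.refl M) hMs N hM
  have h3 : Rigid R M := rigid_semi σ.symm (AddEquiv.refl M) hMs hrig
  obtain ⟨i, ⟨e⟩⟩ := hF M h1 h2 h3
  refine ⟨i, ⟨?_⟩⟩
  let instF : Module R' (F i) := Module.compHom (F i) (σ.symm : R' →+* R)
  let e' : M ≃ₗ[R'] (F i) :=
    { e.toAddEquiv with
      map_smul' := fun r x => by
        have h4 : r • x = σ.symm r • x := hMs r x
        change e (r • x) = σ.symm r • e x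
        rw [h4, map_smul] }
  exact e'

end H25.PSX
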